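import Mathlib
import Pool.Agent.Q288.CTMC.Basic

/-! # Percolation with constant freezing on a finite graph -/

open Filter Topology Matrix
open scoped Classical

set_option linter.unusedSectionVars false
set_option linter.unusedVariables false

namespace Pool.Agent.Q288.PCF

open Pool.Agent.Q288

variable {V : Type} [Fintype V] [DecidableEq V]

/-- The cluster of the vertex `v`: all vertices connected to `v` by a path of edges in `O`. -/
noncomputable def cluster (O : Finset (Sym2 V)) (v : V) : Finset V :=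
  Finset.univ.filter fun u => (SimpleGraph.fromEdgeSet (O : Set (Sym2 V))).Reachable v u

/-- The closed edges of `G` with two warm endpoints; `F` is the set of frozen vertices and `O`
the set of open edges. -/
noncomputable def openable (G : SimpleGraph V) (F : Finset V) (O : Finset (Sym2 V)) :
    Finset (Sym2 V) :=
  Finset.univ.filter fun e => e ∈ G.edgeSet ∧ e ∉ O ∧ ∀ v ∈ e, v ∉ F

/-- The clusters of warm vertices. -/
noncomputable def warmClusters (F : Finset V) (O : Finset (Sym2 V)) : Finset (Finset V) :=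
  (Finset.univ.filter fun v => v ∉ F).image (cluster O)

/-- The jump rates of percolation with constant freezing at rate `α` on `G`. A state is a pair
`(F, O)`: the set of frozen vertices and the set of open edges. Closed edges with warm endpoints
open at rate `1`, warm clusters freeze at rate `α`. -/
noncomputable def rate (G : SimpleGraph V) (α : ℝ) (s s' : Finset V × Finset (Sym2 V)) : ℝ :=
  (∑ e ∈ openable G s.1 s.2, if s' = (s.1, insert e s.2) then 1 else 0) +
    ∑ C ∈ warmClusters s.1 s.2, if s' = (s.1 ∪ C, s.2) then α else 0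

/-- `μ` is the law of the final edge configuration of the continuous-time Markov chain with these
rates, started with all vertices warm and all edges closed: `μ O` is the limit as `t → ∞` of the
probability that the set of open edges at time `t` is `O`. -/
def IsFinalLaw (G : SimpleGraph V) (α : ℝ) (μ : Finset (Sym2 V) → ℝ) : Prop :=
  ∀ O, Tendsto (fun t : ℝ => ∑ F : Finset V,
    NormedSpace.exp (t • CTMC.gen (rate G α)) (∅, ∅) (F, O)) atTop (𝓝 (μ O))

/-- The probability of an event. -/
noncomputable def prob (μ : Finset (Sym2 V) → ℝ) (A : Set (Finset (Sym2 V))) : ℝ :=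
  ∑ O, if O ∈ A then μ O else 0

/-! ### The generator -/

theorem rate_nonneg (G : SimpleGraph V) {α : ℝ} (hα : 0 ≤ α) (s s') : 0 ≤ rate G α s s' := by
  unfold rate
  apply add_nonneg
  · exact Finset.sum_nonneg fun e _ => by split_ifs <;> norm_num
  · exact Finset.sum_nonneg fun e _ => by split_ifs <;> [exact hα; exact le_rfl]

theorem gen_apply (G : SimpleGraph V) (α : ℝ) (h : Finset V × Finset (Sym2 V) → ℝ)
    (F : Finset V) (O : Finset (Sym2 V)) :
    (CTMC.gen (rate G α) *ᵥ h) (F, O) =
      ∑ e ∈ openable G F O, (h (F, insert e O) - h (F, O)) +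
        α * ∑ C ∈ warmClusters F O, (h (F ∪ C, O) - h (F, O)) := by
  rw [CTMC.gen_mulVec]
  simp only [rate, add_mul, Finset.sum_add_distrib, Finset.sum_mul]
  congr 1
  · rw [Finset.sum_comm]
    apply Finset.sum_congr rfl
    intro e _
    simp [ite_mul]
  · rw [Finset.sum_comm, Finset.mul_sum]
    apply Finset.sum_congr rfl
    intro e _
    simp [ite_mul]

theorem mem_cluster_self (O : Finset (Sym2 V)) (v : V) : v ∈ cluster O v := by
  simp [cluster]

theorem mem_openable {G : SimpleGraph V} {F : Finset V} {O : Finset (Sym2 V)} {e : Sym2 V} :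
    e ∈ openable G F O ↔ e ∈ G.edgeSet ∧ e ∉ O ∧ ∀ v ∈ e, v ∉ F := by
  simp [openable]

theorem mem_warmClusters {F : Finset V} {O : Finset (Sym2 V)} {C : Finset V} :
    C ∈ warmClusters F O ↔ ∃ v, v ∉ F ∧ cluster O v = C := by
  simp [warmClusters]

theorem card_warmClusters_le (F : Finset V) (O : Finset (Sym2 V)) :
    (warmClusters F O).card ≤ Fintype.card V :=
  (Finset.card_image_le).trans (Finset.card_le_univ _)

theorem openable_univ (G : SimpleGraph V) (O : Finset (Sym2 V)) :
    openable G Finset.univ O = ∅ := by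
  ext e
  simp only [mem_openable, Finset.notMem_empty, iff_false]
  rintro ⟨_, _, h⟩
  induction e with
  | _ a b => exact h a (Sym2.mem_mk_left a b) (Finset.mem_univ _)

theorem warmClusters_univ (O : Finset (Sym2 V)) : warmClusters Finset.univ O = ∅ := by
  ext C
  simp [mem_warmClusters]

theorem absorbing_univ (G : SimpleGraph V) (α : ℝ) (O : Finset (Sym2 V)) :
    CTMC.Absorbing (rate G α) (Finset.univ, O) := by
  intro s'
  simp [rate, openable_univ, warmClusters_univ]

/-- The Lyapunov function: number of edges that can open plus number of warm vertices. -/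
noncomputable def lyap (G : SimpleGraph V) (s : Finset V × Finset (Sym2 V)) : ℝ :=
  (openable G s.1 s.2).card + ((Fintype.card V : ℝ) - s.1.card)

theorem lyap_nonneg (G : SimpleGraph V) (s : Finset V × Finset (Sym2 V)) : 0 ≤ lyap G s := by
  unfold lyap
  have : (s.1.card : ℝ) ≤ Fintype.card V := by exact_mod_cast Finset.card_le_univ _
  have h2 : (0 : ℝ) ≤ (openable G s.1 s.2).card := Nat.cast_nonneg _
  linarith

theorem lyap_le (G : SimpleGraph V) (s : Finset V × Finset (Sym2 V)) :
    lyap G s ≤ Fintype.card (Sym2 V) + Fintype.card V := by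
  unfold lyap
  have h1 : ((openable G s.1 s.2).card : ℝ) ≤ Fintype.card (Sym2 V) := by
    exact_mod_cast Finset.card_le_univ _
  have h2 : (0 : ℝ) ≤ s.1.card := Nat.cast_nonneg _
  linarith

theorem one_le_lyap (G : SimpleGraph V) (s : Finset V × Finset (Sym2 V))
    (hs : s.1 ≠ Finset.univ) : 1 ≤ lyap G s := by
  unfold lyap
  have : s.1.card + 1 ≤ Fintype.card V := by
    rcases (Finset.card_le_univ s.1).lt_or_eq with h | h
    · exact h
    · exact absurd ((Finset.card_eq_iff_eq_univ _).mp h) hs
  have h1 : (s.1.card : ℝ) + 1 ≤ Fintype.card V := by exact_mod_cast this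
  have h2 : (0 : ℝ) ≤ (openable G s.1 s.2).card := Nat.cast_nonneg _
  linarith

theorem lyap_open (G : SimpleGraph V) (F : Finset V) (O : Finset (Sym2 V)) {e : Sym2 V}
    (he : e ∈ openable G F O) : lyap G (F, insert e O) - lyap G (F, O) ≤ 0 := by
  unfold lyap
  have : openable G F (insert e O) ⊆ openable G F O := by
    intro f hf
    rw [mem_openable] at hf ⊢
    exact ⟨hf.1, fun h => hf.2.1 (Finset.mem_insert_of_mem h), hf.2.2⟩
  have h : ((openable G F (insert e O)).card : ℝ) ≤ (openable G F O).card := by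
    exact_mod_cast Finset.card_le_card this
  simp only
  linarith

theorem lyap_freeze (G : SimpleGraph V) (F : Finset V) (O : Finset (Sym2 V)) {C : Finset V}
    (hC : C ∈ warmClusters F O) : lyap G (F ∪ C, O) - lyap G (F, O) ≤ -1 := by
  unfold lyap
  have : openable G (F ∪ C) O ⊆ openable G F O := by
    intro f hf
    rw [mem_openable] at hf ⊢
    exact ⟨hf.1, hf.2.1, fun v hv h => hf.2.2 v hv (Finset.mem_union_left _ h)⟩
  have h : ((openable G (F ∪ C) O).card : ℝ) ≤ (openable G F O).card := by
    exact_mod_cast Finset.card_le_card this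
  obtain ⟨v, hv, rfl⟩ := mem_warmClusters.mp hC
  have h2 : F.card + 1 ≤ (F ∪ cluster O v).card := by
    rw [← Finset.card_insert_of_notMem hv]
    apply Finset.card_le_card
    intro u hu
    rcases Finset.mem_insert.mp hu with rfl | hu
    · exact Finset.mem_union_right _ (mem_cluster_self O _)
    · exact Finset.mem_union_left _ hu
  have h3 : (F.card : ℝ) + 1 ≤ (F ∪ cluster O v).card := by exact_mod_cast h2
  simp only
  linarith

theorem gen_lyap (G : SimpleGraph V) {α : ℝ} (hα : 0 < α) (s : Finset V × Finset (Sym2 V)) :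
    (CTMC.gen (rate G α) *ᵥ lyap G) s ≤
      -(α / (Fintype.card (Sym2 V) + Fintype.card V + 1)) * lyap G s := by
  obtain ⟨F, O⟩ := s
  rw [gen_apply]
  have h1 : ∑ e ∈ openable G F O, (lyap G (F, insert e O) - lyap G (F, O)) ≤ 0 :=
    Finset.sum_nonpos fun e he => lyap_open G F O he
  have hN : (0 : ℝ) < Fintype.card (Sym2 V) + Fintype.card V + 1 := by positivity
  by_cases hF : F = Finset.univ
  · subst hF
    have h0 : lyap G (Finset.univ, O) = 0 := by
      unfold lyap
      simp [openable_univ]
    rw [openable_univ, warmClusters_univ, h0]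
    simp
  · obtain ⟨v, hv⟩ : ∃ v, v ∉ F := by
      by_contra h
      push Not at h
      exact hF (Finset.eq_univ_iff_forall.mpr h)
    have hC : cluster O v ∈ warmClusters F O := mem_warmClusters.mpr ⟨v, hv, rfl⟩
    have h2 : ∑ C ∈ warmClusters F O, (lyap G (F ∪ C, O) - lyap G (F, O)) ≤ -1 := by
      calc ∑ C ∈ warmClusters F O, (lyap G (F ∪ C, O) - lyap G (F, O))
          ≤ ∑ C ∈ {cluster O v}, (lyap G (F ∪ C, O) - lyap G (F, O)) := by
            rw [← Finset.sum_sdiff (Finset.singleton_subset_iff.mpr hC)]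
            have : ∑ C ∈ warmClusters F O \ {cluster O v},
                (lyap G (F ∪ C, O) - lyap G (F, O)) ≤ 0 := by
              apply Finset.sum_nonpos
              intro C hC'
              have := lyap_freeze G F O (Finset.mem_sdiff.mp hC').1
              linarith
            linarith
        _ ≤ -1 := by
            rw [Finset.sum_singleton]
            exact lyap_freeze G F O hC
    have h3 := lyap_le G (F, O)
    have h4 : lyap G (F, O) / (Fintype.card (Sym2 V) + Fintype.card V + 1) ≤ 1 := by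
      rw [div_le_one hN]; linarith
    have h5 : α * ∑ C ∈ warmClusters F O, (lyap G (F ∪ C, O) - lyap G (F, O)) ≤ α * (-1) :=
      mul_le_mul_of_nonneg_left h2 hα.le
    have h6 : -(α / (Fintype.card (Sym2 V) + Fintype.card V + 1)) * lyap G (F, O) =
      -(α * (lyap G (F, O) / (Fintype.card (Sym2 V) + Fintype.card V + 1))) := by ring
    rw [h6]
    have h7 : α * (lyap G (F, O) / (Fintype.card (Sym2 V) + Fintype.card V + 1)) ≤ α * 1 :=
      mul_le_mul_of_nonneg_left h4 hα.le
    linarith

theorem not_absorbing_ne {G : SimpleGraph V} {α : ℝ} {s : Finset V × Finset (Sym2 V)}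
    (h : ¬ CTMC.Absorbing (rate G α) s) : s.1 ≠ Finset.univ := by
  intro h1
  apply h
  obtain ⟨F, O⟩ := s
  simp only at h1
  subst h1
  exact absorbing_univ G α O

/-- Every transition probability converges; the limit vanishes unless all vertices are frozen. -/
theorem exists_limit (G : SimpleGraph V) {α : ℝ} (hα : 0 < α)
    (s : Finset V × Finset (Sym2 V)) :
    ∃ l : Finset V × Finset (Sym2 V) → ℝ, (∀ y, Tendsto (fun t : ℝ =>
      NormedSpace.exp (t • CTMC.gen (rate G α)) s y) atTop (𝓝 (l y))) ∧ (∀ y, 0 ≤ l y) ∧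
      (∀ y, y.1 ≠ Finset.univ → l y = 0) ∧ ∑ y, l y = 1 := by
  set N : ℝ := Fintype.card (Sym2 V) + Fintype.card V + 1 with hN
  have hNpos : 0 < N := by positivity
  have h0 : ∀ y : Finset V × Finset (Sym2 V), y.1 ≠ Finset.univ →
      Tendsto (fun t : ℝ => NormedSpace.exp (t • CTMC.gen (rate G α)) s y) atTop (𝓝 0) := by
    intro y hy
    have hna : ¬ CTMC.Absorbing (rate G α) y := by
      intro ha
      obtain ⟨v, hv⟩ : ∃ v, v ∉ y.1 := by
        by_contra h
        push Not at h
        exact hy (Finset.eq_univ_iff_forall.mpr h)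
      have h1 := ha (y.1 ∪ cluster y.2 v, y.2)
      have h2 : α ≤ rate G α y (y.1 ∪ cluster y.2 v, y.2) := by
        unfold rate
        have h3 : 0 ≤ ∑ e ∈ openable G y.1 y.2,
            (if (y.1 ∪ cluster y.2 v, y.2) = (y.1, insert e y.2) then (1 : ℝ) else 0) :=
          Finset.sum_nonneg fun e _ => by split_ifs <;> norm_num
        have h4 : α ≤ ∑ C ∈ warmClusters y.1 y.2,
            (if (y.1 ∪ cluster y.2 v, y.2) = (y.1 ∪ C, y.2) then α else 0) := by
          calc α = (if (y.1 ∪ cluster y.2 v, y.2) = (y.1 ∪ cluster y.2 v, y.2) then α else 0) := by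
                rw [if_pos rfl]
            _ ≤ _ := Finset.single_le_sum (f := fun C =>
                if (y.1 ∪ cluster y.2 v, y.2) = (y.1 ∪ C, y.2) then α else 0)
                (fun C _ => by split_ifs <;> [exact hα.le; exact le_rfl])
                (mem_warmClusters.mpr ⟨v, hv, rfl⟩)
        linarith
      linarith
    have hb : ∀ᶠ t : ℝ in atTop, NormedSpace.exp (t • CTMC.gen (rate G α)) s y ≤
        Real.exp (-(α / N) * t) * lyap G s := by
      filter_upwards [eventually_ge_atTop 0] with t ht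
      exact CTMC.nonabsorbed_le (rate_nonneg G hα.le) (lyap_nonneg G)
        (fun x hx => one_le_lyap G x (not_absorbing_ne hx)) (gen_lyap G hα) ht s y hna
    have hn : ∀ᶠ t : ℝ in atTop, 0 ≤ NormedSpace.exp (t • CTMC.gen (rate G α)) s y := by
      filter_upwards [eventually_ge_atTop 0] with t ht
      exact CTMC.exp_gen_nonneg (rate_nonneg G hα.le) ht s y
    have hlim : Tendsto (fun t : ℝ => Real.exp (-(α / N) * t) * lyap G s) atTop (𝓝 0) := by
      have h1 : Tendsto (fun t : ℝ => -(α / N) * t) atTop atBot := by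
        apply Tendsto.const_mul_atTop_of_neg _ tendsto_id
        have := div_pos hα hNpos
        linarith
      have h2 := (Real.tendsto_exp_atBot.comp h1).mul_const (lyap G s)
      simpa using h2
    exact tendsto_of_tendsto_of_tendsto_of_le_of_le' tendsto_const_nhds hlim hn hb
  have hex : ∀ y : Finset V × Finset (Sym2 V), ∃ l : ℝ, Tendsto (fun t : ℝ =>
      NormedSpace.exp (t • CTMC.gen (rate G α)) s y) atTop (𝓝 l) := by
    intro y
    by_cases hy : y.1 = Finset.univ
    · obtain ⟨F, O⟩ := y
      simp only at hy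
      subst hy
      exact CTMC.exists_limit_absorbing (rate_nonneg G hα.le) s _ (absorbing_univ G α O)
    · exact ⟨0, h0 y hy⟩
  choose l hl using hex
  refine ⟨l, hl, fun y => ?_, fun y hy => tendsto_nhds_unique (hl y) (h0 y hy), ?_⟩
  · apply ge_of_tendsto (hl y)
    filter_upwards [eventually_ge_atTop 0] with t ht
    exact CTMC.exp_gen_nonneg (rate_nonneg G hα.le) ht s y
  · have h1 : Tendsto (fun t : ℝ => ∑ y, NormedSpace.exp (t • CTMC.gen (rate G α)) s y) atTop
        (𝓝 (∑ y, l y)) := tendsto_finsetSum _ fun y _ => hl y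
    have h2 : Tendsto (fun t : ℝ => ∑ y, NormedSpace.exp (t • CTMC.gen (rate G α)) s y) atTop
        (𝓝 1) := by
      apply tendsto_const_nhds.congr'
      filter_upwards [eventually_ge_atTop 0] with t ht
      exact (CTMC.exp_gen_one (rate_nonneg G hα.le) ht s).symm
    exact tendsto_nhds_unique h1 h2

/-- The final law exists. -/
theorem exists_finalLaw (G : SimpleGraph V) {α : ℝ} (hα : 0 < α) : ∃ μ, IsFinalLaw G α μ := by
  obtain ⟨l, hl, _⟩ := exists_limit G hα (∅, ∅)
  exact ⟨fun O => ∑ F, l (F, O), fun O => tendsto_finsetSum _ fun F _ => hl (F, O)⟩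

/-- Description of the final law through the limits of the transition probabilities. -/
theorem finalLaw_eq {G : SimpleGraph V} {α : ℝ} {μ : Finset (Sym2 V) → ℝ}
    (hμ : IsFinalLaw G α μ) {l : Finset V × Finset (Sym2 V) → ℝ}
    (hl : ∀ y, Tendsto (fun t : ℝ => NormedSpace.exp (t • CTMC.gen (rate G α)) (∅, ∅) y)
      atTop (𝓝 (l y))) (A : Set (Finset (Sym2 V))) :
    prob μ A = ∑ y : Finset V × Finset (Sym2 V), if y.2 ∈ A then l y else 0 := by
  have h1 : ∀ O, μ O = ∑ F, l (F, O) := fun O =>
    tendsto_nhds_unique (hμ O) (tendsto_finsetSum _ fun F _ => hl (F, O))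
  unfold prob
  rw [Fintype.sum_prod_type_right]
  apply Finset.sum_congr rfl
  intro O _
  split_ifs with h
  · exact h1 O
  · simp

theorem nonneg_of_finalLaw {G : SimpleGraph V} {α : ℝ} (hα : 0 < α) {μ : Finset (Sym2 V) → ℝ}
    (hμ : IsFinalLaw G α μ) (O : Finset (Sym2 V)) : 0 ≤ μ O := by
  apply ge_of_tendsto (hμ O)
  filter_upwards [eventually_ge_atTop 0] with t ht
  exact Finset.sum_nonneg fun F _ => CTMC.exp_gen_nonneg (rate_nonneg G hα.le) ht _ _

/-- Lower bounds for the final law through a space-time subsolution. -/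
theorem le_prob_of_subsolution {G : SimpleGraph V} {α : ℝ} (hα : 0 < α)
    {μ : Finset (Sym2 V) → ℝ} (hμ : IsFinalLaw G α μ) (A : Set (Finset (Sym2 V)))
    {h : Finset V × Finset (Sym2 V) → ℝ} (hsub : ∀ s, 0 ≤ (CTMC.gen (rate G α) *ᵥ h) s)
    (hend : ∀ O, h (Finset.univ, O) ≤ A.indicator 1 O)
    {t : ℝ} (ht : 0 ≤ t) {g g' : ℝ → Finset V × Finset (Sym2 V) → ℝ}
    (hg : ∀ τ ∈ Set.Icc 0 t, ∀ y, HasDerivAt (fun u => g u y) (g' τ y) τ)
    (hgs : ∀ τ ∈ Set.Icc 0 t, ∀ x, g' τ x ≤ (CTMC.gen (rate G α) *ᵥ g τ) x)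
    (hg0 : ∀ s, g 0 s ≤ h s) : g t (∅, ∅) ≤ prob μ A := by
  obtain ⟨l, hl, hl0, hl1, _⟩ := exists_limit G hα (∅, ∅)
  have hr := rate_nonneg G hα.le
  have h1 : g t (∅, ∅) ≤ (NormedSpace.exp (t • CTMC.gen (rate G α)) *ᵥ h) (∅, ∅) :=
    (CTMC.le_exp_of_subsolution hr ht hg hgs _).trans
      (CTMC.mulVec_mono (fun x y => CTMC.exp_gen_nonneg hr ht x y) hg0 _)
  have h2 : ∀ u : ℝ, t ≤ u →
      g t (∅, ∅) ≤ (NormedSpace.exp (u • CTMC.gen (rate G α)) *ᵥ h) (∅, ∅) := by
    intro u hu
    have e : NormedSpace.exp (u • CTMC.gen (rate G α)) =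
        NormedSpace.exp (t • CTMC.gen (rate G α)) *
          NormedSpace.exp ((u - t) • CTMC.gen (rate G α)) := by
      rw [← Matrix.exp_add_of_commute _ _
        ((Commute.refl (CTMC.gen (rate G α))).smul_left _ |>.smul_right _), ← add_smul]
      congr 2
      ring
    rw [e, ← Matrix.mulVec_mulVec]
    refine h1.trans (CTMC.mulVec_mono (fun x y => CTMC.exp_gen_nonneg hr ht x y) ?_ _)
    intro s
    exact CTMC.le_exp_of_subharmonic hr (by linarith) hsub s
  have h3 : Tendsto (fun u : ℝ => (NormedSpace.exp (u • CTMC.gen (rate G α)) *ᵥ h) (∅, ∅)) atTop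
      (𝓝 (∑ y, l y * h y)) := by
    simp only [Matrix.mulVec, dotProduct]
    exact tendsto_finsetSum _ fun y _ => (hl y).mul_const _
  have h4 : g t (∅, ∅) ≤ ∑ y, l y * h y :=
    ge_of_tendsto h3 (by filter_upwards [eventually_ge_atTop t] with u hu; exact h2 u hu)
  rw [finalLaw_eq hμ hl]
  refine h4.trans (Finset.sum_le_sum fun y _ => ?_)
  by_cases hy : y.1 = Finset.univ
  · obtain ⟨F, O⟩ := y
    simp only at hy
    subst hy
    have h5 := mul_le_mul_of_nonneg_left (hend O) (hl0 (Finset.univ, O))
    simp only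
    split_ifs with h6
    · rw [Set.indicator_of_mem h6, Pi.one_apply, mul_one] at h5; exact h5
    · rw [Set.indicator_of_notMem h6, mul_zero] at h5; exact h5
  · rw [hl1 y hy]; simp

/-- Lower bounds for the final law through a subharmonic function. -/
theorem le_prob {G : SimpleGraph V} {α : ℝ} (hα : 0 < α)
    {μ : Finset (Sym2 V) → ℝ} (hμ : IsFinalLaw G α μ) (A : Set (Finset (Sym2 V)))
    {h : Finset V × Finset (Sym2 V) → ℝ} (hsub : ∀ s, 0 ≤ (CTMC.gen (rate G α) *ᵥ h) s)
    (hend : ∀ O, h (Finset.univ, O) ≤ A.indicator 1 O) : h (∅, ∅) ≤ prob μ A :=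
  le_prob_of_subsolution hα hμ A hsub hend le_rfl (g := fun _ => h) (g' := fun _ => 0)
    (fun τ _ y => hasDerivAt_const τ (h y)) (fun τ _ x => by simpa using hsub x)
    (fun s => le_rfl)

/-- Upper bounds for the final law through a superharmonic function. -/
theorem prob_le {G : SimpleGraph V} {α : ℝ} (hα : 0 < α)
    {μ : Finset (Sym2 V) → ℝ} (hμ : IsFinalLaw G α μ) (A : Set (Finset (Sym2 V)))
    {h : Finset V × Finset (Sym2 V) → ℝ} (hsup : ∀ s, (CTMC.gen (rate G α) *ᵥ h) s ≤ 0)
    (hend : ∀ O, A.indicator 1 O ≤ h (Finset.univ, O)) : prob μ A ≤ h (∅, ∅) := by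
  obtain ⟨l, hl, hl0, hl1, _⟩ := exists_limit G hα (∅, ∅)
  have hr := rate_nonneg G hα.le
  have h3 : Tendsto (fun u : ℝ => (NormedSpace.exp (u • CTMC.gen (rate G α)) *ᵥ h) (∅, ∅)) atTop
      (𝓝 (∑ y, l y * h y)) := by
    simp only [Matrix.mulVec, dotProduct]
    exact tendsto_finsetSum _ fun y _ => (hl y).mul_const _
  have h4 : ∑ y, l y * h y ≤ h (∅, ∅) :=
    le_of_tendsto h3 (by
      filter_upwards [eventually_ge_atTop 0] with u hu
      exact CTMC.exp_le_of_superharmonic hr hu hsup _)
  rw [finalLaw_eq hμ hl]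
  refine le_trans (Finset.sum_le_sum fun y _ => ?_) h4
  by_cases hy : y.1 = Finset.univ
  · obtain ⟨F, O⟩ := y
    simp only at hy
    subst hy
    have h5 := mul_le_mul_of_nonneg_left (hend O) (hl0 (Finset.univ, O))
    simp only
    split_ifs with h6
    · rw [Set.indicator_of_mem h6, Pi.one_apply, mul_one] at h5; exact h5
    · rw [Set.indicator_of_notMem h6, mul_zero] at h5; exact h5
  · rw [hl1 y hy]; simp

theorem prob_univ {G : SimpleGraph V} {α : ℝ} (hα : 0 < α)
    {μ : Finset (Sym2 V) → ℝ} (hμ : IsFinalLaw G α μ) : prob μ Set.univ = 1 := by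
  obtain ⟨l, hl, hl0, hl1, hl2⟩ := exists_limit G hα (∅, ∅)
  rw [finalLaw_eq hμ hl]
  simpa using hl2

end Pool.Agent.Q288.PCF
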