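import Mathlib
import Pool.Agent.Q288.PCF.Defs

/-! # The necklace graph: percolation with constant freezing is not monotone in the freezing rate

The vertices are `v_0, ..., v_k`, for every `i < k` and `j < s` a vertex `y_{i,j}` adjacent to
`v_i` and `v_{i+1}`, and two end vertices `x_0` (adjacent to `v_0`) and `x_1` (adjacent to
`v_k`). -/

open Filter Topology Matrix
open scoped Classical

set_option linter.unusedSectionVars false
set_option linter.unusedVariables false

namespace Pool.Agent.Q288.PCF

open Pool.Agent.Q288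

/-- The vertices of the necklace. -/
def NV (k s : ℕ) : Type := Fin (k + 1) ⊕ ((Fin k × Fin s) ⊕ Bool)

instance (k s : ℕ) : Fintype (NV k s) :=
  inferInstanceAs (Fintype (Fin (k + 1) ⊕ ((Fin k × Fin s) ⊕ Bool)))

instance (k s : ℕ) : DecidableEq (NV k s) :=
  inferInstanceAs (DecidableEq (Fin (k + 1) ⊕ ((Fin k × Fin s) ⊕ Bool)))

variable {k s : ℕ}

/-- The vertex `v_i`. -/
def vv (i : Fin (k + 1)) : NV k s := Sum.inl i

/-- The vertex `y_{i,j}`. -/
def yy (i : Fin k) (j : Fin s) : NV k s := Sum.inr (Sum.inl (i, j))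

/-- The end vertices. -/
def xx (b : Bool) : NV k s := Sum.inr (Sum.inr b)

/-- The vertex of the chain adjacent to the end vertex `x_b`. -/
def uu (b : Bool) : NV k s := if b then vv (Fin.last k) else vv 0

/-- The index of the chain vertex of an inner edge. -/
def idx (i : Fin k) (b : Bool) : Fin (k + 1) := if b then i.succ else i.castSucc

/-- The inner edges. -/
def ed (i : Fin k) (j : Fin s) (b : Bool) : Sym2 (NV k s) := s(vv (idx i b), yy i j)

/-- The end edges. -/
def en (b : Bool) : Sym2 (NV k s) := s(xx b, uu b)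

/-- The edges of the necklace. -/
def edges (k s : ℕ) : Set (Sym2 (NV k s)) :=
  {e | (∃ i j b, e = ed i j b) ∨ ∃ b, e = en b}

/-- The necklace graph. -/
def necklace (k s : ℕ) : SimpleGraph (NV k s) := SimpleGraph.fromEdgeSet (edges k s)

theorem uu_eq (b : Bool) : ∃ i, (uu b : NV k s) = vv i := by
  unfold uu; split_ifs <;> exact ⟨_, rfl⟩

theorem vv_ne_yy (i : Fin (k + 1)) (i' : Fin k) (j : Fin s) : (vv i : NV k s) ≠ yy i' j :=
  Sum.inl_ne_inr

theorem vv_ne_xx (i : Fin (k + 1)) (b : Bool) : (vv i : NV k s) ≠ xx b := Sum.inl_ne_inr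

theorem yy_ne_xx (i : Fin k) (j : Fin s) (b : Bool) : (yy i j : NV k s) ≠ xx b :=
  fun h => Sum.inl_ne_inr (Sum.inr_injective h)

theorem vv_inj {i j : Fin (k + 1)} (h : (vv i : NV k s) = vv j) : i = j := Sum.inl_injective h

theorem yy_inj {i i' : Fin k} {j j' : Fin s} (h : (yy i j : NV k s) = yy i' j') :
    i = i' ∧ j = j' := Prod.mk.inj (Sum.inl_injective (Sum.inr_injective h))

theorem xx_inj {b b' : Bool} (h : (xx b : NV k s) = xx b') : b = b' :=
  Sum.inr_injective (Sum.inr_injective h)

theorem edgeSet_necklace : (necklace k s).edgeSet = edges k s := by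
  unfold necklace
  rw [SimpleGraph.edgeSet_fromEdgeSet]
  apply Set.Subset.antisymm
  · exact Set.sdiff_subset
  · intro e he
    refine ⟨he, ?_⟩
    rcases he with ⟨i, j, b, rfl⟩ | ⟨b, rfl⟩
    · simp only [ed]
      intro h
      exact vv_ne_yy _ _ _ (Sym2.mk_isDiag_iff.mp h)
    · simp only [en]
      intro h
      obtain ⟨i, hi⟩ := uu_eq (k := k) (s := s) b
      rw [hi] at h
      exact vv_ne_xx _ _ (Sym2.mk_isDiag_iff.mp h).symm

/-- An inner edge contains `v_i` iff its chain vertex is `v_i`. -/
theorem vv_mem_ed {l : Fin (k + 1)} {i : Fin k} {j : Fin s} {b : Bool} :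
    (vv l : NV k s) ∈ ed i j b ↔ l = idx i b := by
  unfold ed
  rw [Sym2.mem_iff]
  constructor
  · rintro (h | h)
    · exact vv_inj h
    · exact absurd h (vv_ne_yy _ _ _)
  · rintro rfl
    exact Or.inl rfl

theorem vv_mem_en {l : Fin (k + 1)} {b : Bool} :
    (vv l : NV k s) ∈ en b ↔ (vv l : NV k s) = uu b := by
  unfold en
  rw [Sym2.mem_iff]
  constructor
  · rintro (h | h)
    · exact absurd h (vv_ne_xx _ _)
    · exact h
  · exact fun h => Or.inr h

theorem ed_ne_en (i : Fin k) (j : Fin s) (b b' : Bool) : (ed i j b : Sym2 (NV k s)) ≠ en b' := by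
  intro h
  have h1 : (xx b' : NV k s) ∈ ed i j b := by
    rw [h]; exact Sym2.mem_mk_left _ _
  unfold ed at h1
  rw [Sym2.mem_iff] at h1
  rcases h1 with h1 | h1
  · exact vv_ne_xx _ _ h1.symm
  · exact yy_ne_xx _ _ _ h1.symm

theorem ed_inj {i i' : Fin k} {j j' : Fin s} {b b' : Bool}
    (h : (ed i j b : Sym2 (NV k s)) = ed i' j' b') : i = i' ∧ j = j' ∧ b = b' := by
  have h1 : (yy i j : NV k s) ∈ ed i' j' b' := by
    rw [← h]; exact Sym2.mem_mk_right _ _
  have h2 : (vv (idx i b) : NV k s) ∈ ed i' j' b' := by
    rw [← h]; exact Sym2.mem_mk_left _ _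
  unfold ed at h1
  rw [Sym2.mem_iff] at h1
  rcases h1 with h1 | h1
  · exact absurd h1.symm (vv_ne_yy _ _ _)
  · obtain ⟨rfl, rfl⟩ := yy_inj h1
    refine ⟨rfl, rfl, ?_⟩
    rw [vv_mem_ed] at h2
    unfold idx at h2
    cases b <;> cases b' <;> simp at h2 ⊢
    · exact absurd h2 (by rw [Fin.ext_iff]; simp)
    · exact absurd h2 (by rw [Fin.ext_iff]; simp)

theorem en_inj {b b' : Bool} (h : (en b : Sym2 (NV k s)) = en b') : b = b' := by
  have h1 : (xx b : NV k s) ∈ en b' := by
    rw [← h]; exact Sym2.mem_mk_left _ _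
  unfold en at h1
  rw [Sym2.mem_iff] at h1
  rcases h1 with h1 | h1
  · exact xx_inj h1
  · obtain ⟨i, hi⟩ := uu_eq (k := k) (s := s) b'
    rw [hi] at h1
    exact absurd h1.symm (vv_ne_xx _ _)

/-- Both end edges are closed. -/
def endsClosed (k s : ℕ) : Set (Finset (Sym2 (NV k s))) := {O | ∀ b, en b ∉ O}

theorem endsClosed_compl_upper : IsUpperSet (endsClosed k s)ᶜ := by
  intro O O' h hO hO'
  apply hO
  intro b hb
  exact hO' b (h hb)

/-- `v_0` and `v_k` are connected in `O`. -/
def conn (O : Finset (Sym2 (NV k s))) : Prop :=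
  (SimpleGraph.fromEdgeSet (O : Set (Sym2 (NV k s)))).Reachable (uu false) (uu true)

theorem fromEdgeSet_mono {V : Type} {O O' : Finset (Sym2 V)} (h : O ⊆ O') :
    SimpleGraph.fromEdgeSet (O : Set (Sym2 V)) ≤ SimpleGraph.fromEdgeSet (O' : Set (Sym2 V)) :=
  SimpleGraph.fromEdgeSet_mono (by exact_mod_cast h)

theorem conn_mono {O O' : Finset (Sym2 (NV k s))} (h : O ⊆ O') (hO : conn O) : conn O' :=
  hO.mono (fromEdgeSet_mono h)

theorem cluster_of_conn {O : Finset (Sym2 (NV k s))} (hO : conn O) (b b' : Bool) :
    (uu b' : NV k s) ∈ cluster O (uu b) := by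
  simp only [cluster, Finset.mem_filter, Finset.mem_univ, true_and]
  cases b <;> cases b'
  · exact SimpleGraph.Reachable.refl _
  · exact hO
  · exact hO.symm
  · exact SimpleGraph.Reachable.refl _

/-- If every link has an open two-step path then the ends of the chain are connected. -/
theorem conn_of_links {O : Finset (Sym2 (NV k s))}
    (h : ∀ i : Fin k, ∃ j : Fin s, ed i j false ∈ O ∧ ed i j true ∈ O) : conn O := by
  have step : ∀ i : Fin k, (SimpleGraph.fromEdgeSet (O : Set (Sym2 (NV k s)))).Reachable
      (vv i.castSucc) (vv i.succ) := by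
    intro i
    obtain ⟨j, h1, h2⟩ := h i
    have a1 : (SimpleGraph.fromEdgeSet (O : Set (Sym2 (NV k s)))).Adj (vv i.castSucc) (yy i j) := by
      rw [SimpleGraph.fromEdgeSet_adj]
      exact ⟨by exact_mod_cast h1, vv_ne_yy _ _ _⟩
    have a2 : (SimpleGraph.fromEdgeSet (O : Set (Sym2 (NV k s)))).Adj (vv i.succ) (yy i j) := by
      rw [SimpleGraph.fromEdgeSet_adj]
      exact ⟨by exact_mod_cast h2, vv_ne_yy _ _ _⟩
    exact a1.reachable.trans a2.symm.reachable
  have all : ∀ i : Fin (k + 1), (SimpleGraph.fromEdgeSet (O : Set (Sym2 (NV k s)))).Reachable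
      (vv 0) (vv i) := by
    intro i
    induction i using Fin.induction with
    | zero => exact SimpleGraph.Reachable.refl _
    | succ i ih => exact ih.trans (step i)
  exact all (Fin.last k)

/-! ### The lower bound -/

/-- Both end edges are closed and have a frozen end vertex. -/
def bothDead (st : Finset (NV k s) × Finset (Sym2 (NV k s))) : Prop :=
  ∀ b, en b ∉ st.2 ∧ (xx b ∈ st.1 ∨ uu b ∈ st.1)

/-- The static subharmonic function. -/
noncomputable def hlow (α : ℝ) (st : Finset (NV k s) × Finset (Sym2 (NV k s))) : ℝ :=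
  if bothDead st then 1 else if (conn st.2 ∧ ∀ b, en b ∉ st.2) then α / (α + 2) else 0

theorem hlow_nonneg {α : ℝ} (hα : 0 < α) (st : Finset (NV k s) × Finset (Sym2 (NV k s))) :
    0 ≤ hlow α st := by
  unfold hlow
  split_ifs <;> [norm_num; positivity; exact le_rfl]

theorem hlow_le_one {α : ℝ} (hα : 0 < α) (st : Finset (NV k s) × Finset (Sym2 (NV k s))) :
    hlow α st ≤ 1 := by
  unfold hlow
  split_ifs
  · exact le_rfl
  · rw [div_le_one (by positivity)]; linarith
  · norm_num

theorem en_mem_edgeSet (b : Bool) : (en b : Sym2 (NV k s)) ∈ (necklace k s).edgeSet := by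
  rw [edgeSet_necklace]; exact Or.inr ⟨b, rfl⟩

theorem hlow_sub {α : ℝ} (hα : 0 < α) (st : Finset (NV k s) × Finset (Sym2 (NV k s))) :
    0 ≤ (CTMC.gen (rate (necklace k s) α) *ᵥ hlow α) st := by
  obtain ⟨F, O⟩ := st
  rw [gen_apply]
  by_cases hb : bothDead (F, O)
  · have v0 : hlow α (F, O) = 1 := if_pos hb
    have e1 : ∀ e ∈ openable (necklace k s) F O, hlow α (F, insert e O) = 1 := by
      intro e he
      apply if_pos
      intro b
      obtain ⟨h1, h2⟩ := hb b
      refine ⟨?_, h2⟩
      rw [Finset.mem_insert]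
      rintro (h | h)
      · rw [mem_openable] at he
        rcases h2 with h2 | h2
        · exact he.2.2 _ (by rw [← h]; exact Sym2.mem_mk_left _ _) h2
        · exact he.2.2 _ (by rw [← h]; exact Sym2.mem_mk_right _ _) h2
      · exact h1 h
    have e2 : ∀ C ∈ warmClusters F O, hlow α (F ∪ C, O) = 1 := by
      intro C _
      apply if_pos
      intro b
      obtain ⟨h1, h2⟩ := hb b
      exact ⟨h1, h2.imp (fun h => Finset.mem_union_left _ h) (fun h => Finset.mem_union_left _ h)⟩
    rw [Finset.sum_eq_zero (fun e he => by rw [e1 e he, v0, sub_self]),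
      Finset.sum_eq_zero (fun C hC => by rw [e2 C hC, v0, sub_self])]
    simp
  · by_cases hc : conn O ∧ ∀ b, en b ∉ O
    · set c : ℝ := α / (α + 2) with hcdef
      have hcpos : 0 < c := by positivity
      have v0 : hlow α (F, O) = c := by
        unfold hlow
        rw [if_neg hb, if_pos hc]
      -- edges
      have hedge : -(2 * c) ≤ ∑ e ∈ openable (necklace k s) F O,
          (hlow α (F, insert e O) - hlow α (F, O)) := by
        have hterm : ∀ e ∈ openable (necklace k s) F O,
            -(if e ∈ Finset.univ.image (en : Bool → Sym2 (NV k s)) then c else 0) ≤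
              hlow α (F, insert e O) - hlow α (F, O) := by
          intro e he
          rw [v0]
          by_cases hen : e ∈ Finset.univ.image (en : Bool → Sym2 (NV k s))
          · rw [if_pos hen]
            have := hlow_nonneg hα (F, insert e O)
            linarith
          · rw [if_neg hen]
            have hnot : ∀ b, en b ∉ insert e O := by
              intro b
              rw [Finset.mem_insert]
              rintro (h | h)
              · exact hen (Finset.mem_image.mpr ⟨b, Finset.mem_univ _, h⟩)
              · exact hc.2 b h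
            have : c ≤ hlow α (F, insert e O) := by
              unfold hlow
              split_ifs with h1 h2
              · rw [hcdef, div_le_one (by positivity)]; linarith
              · exact le_rfl
              · exact absurd ⟨conn_mono (Finset.subset_insert _ _) hc.1, hnot⟩ h2
            linarith
        refine le_trans ?_ (Finset.sum_le_sum hterm)
        rw [Finset.sum_neg_distrib, neg_le_neg_iff, ← Finset.sum_filter, Finset.sum_const,
          nsmul_eq_mul]
        apply mul_le_mul_of_nonneg_right _ hcpos.le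
        have h1 : ((openable (necklace k s) F O).filter fun e =>
            e ∈ Finset.univ.image (en : Bool → Sym2 (NV k s))).card ≤ 2 := by
          calc _ ≤ (Finset.univ.image (en : Bool → Sym2 (NV k s))).card :=
                Finset.card_le_card fun e he => (Finset.mem_filter.mp he).2
            _ ≤ (Finset.univ : Finset Bool).card := Finset.card_image_le
            _ = 2 := rfl
        exact_mod_cast h1
      -- clusters
      obtain ⟨b, hbb⟩ : ∃ b : Bool, (xx b : NV k s) ∉ F ∧ (uu b : NV k s) ∉ F := by
        by_contra hcon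
        push Not at hcon
        apply hb
        intro b
        refine ⟨hc.2 b, ?_⟩
        by_cases hx : (xx b : NV k s) ∈ F
        · exact Or.inl hx
        · exact Or.inr (hcon b hx)
      have hCmem : cluster O (uu b) ∈ warmClusters F O := mem_warmClusters.mpr ⟨_, hbb.2, rfl⟩
      have hterm : ∀ C ∈ warmClusters F O,
          (if C = cluster O (uu b) then 1 - c else 0) ≤ hlow α (F ∪ C, O) - hlow α (F, O) := by
        intro C hC
        rw [v0]
        split_ifs with hCe
        · have : hlow α (F ∪ C, O) = 1 := by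
            apply if_pos
            intro b'
            refine ⟨hc.2 b', Or.inr (Finset.mem_union_right _ ?_)⟩
            rw [hCe]
            exact cluster_of_conn hc.1 b b'
          rw [this]
        · have : c ≤ hlow α (F ∪ C, O) := by
            unfold hlow
            split_ifs with h1
            · rw [hcdef, div_le_one (by positivity)]; linarith
            · exact le_rfl
          linarith
      have hclus : 1 - c ≤ ∑ C ∈ warmClusters F O, (hlow α (F ∪ C, O) - hlow α (F, O)) := by
        refine le_trans ?_ (Finset.sum_le_sum hterm)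
        rw [Finset.sum_ite_eq' , if_pos hCmem]
      have e1 : α * (1 - c) - 2 * c = 0 := by
        rw [hcdef]; field_simp; ring
      have := mul_le_mul_of_nonneg_left hclus hα.le
      linarith
    · have v0 : hlow α (F, O) = 0 := by
        unfold hlow
        rw [if_neg hb, if_neg hc]
      rw [v0]
      apply add_nonneg
      · exact Finset.sum_nonneg fun e _ => by linarith [hlow_nonneg hα (F, insert e O)]
      · exact mul_nonneg hα.le
          (Finset.sum_nonneg fun C _ => by linarith [hlow_nonneg hα (F ∪ C, O)])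

end Pool.Agent.Q288.PCF
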