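import Mathlib
import Pool.Agent.Q288.PCF.Necklace

/-! # The lower bound for the necklace: all links open early -/

open Filter Topology Matrix
open scoped Classical

set_option linter.unusedSectionVars false
set_option linter.unusedVariables false

namespace Pool.Agent.Q288.PCF

open Pool.Agent.Q288

variable {k s : ℕ}

/-- A two-step path is not open. -/
def ZZ (a : Bool → ℝ) : ℝ := 1 - a false * a true

/-- A link is not open. -/
def WW (a : Fin s → Bool → ℝ) : ℝ := ∏ j, ZZ (a j)

/-- All links are open. -/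
def PP (a : Fin k → Fin s → Bool → ℝ) : ℝ := ∏ i, (1 - WW (a i))

/-- Set one coordinate to `1`. -/
def upd (a : Fin k → Fin s → Bool → ℝ) (i : Fin k) (j : Fin s) (b : Bool) :
    Fin k → Fin s → Bool → ℝ :=
  Function.update a i (Function.update (a i) j (Function.update (a i j) b 1))

theorem ZZ_upd (a : Bool → ℝ) :
    ∑ b, (ZZ (Function.update a b 1) - ZZ a) =
      -((1 - a false) * a true + a false * (1 - a true)) := by
  simp [ZZ, Function.update]
  ring

theorem WW_update (a : Fin s → Bool → ℝ) (j : Fin s) (c : Bool → ℝ) :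
    WW (Function.update a j c) - WW a = (ZZ c - ZZ (a j)) * ∏ j' ∈ Finset.univ.erase j, ZZ (a j') := by
  unfold WW
  rw [← Finset.mul_prod_erase Finset.univ _ (Finset.mem_univ j),
    ← Finset.mul_prod_erase Finset.univ (fun j => ZZ (a j)) (Finset.mem_univ j)]
  have : ∏ j' ∈ Finset.univ.erase j, ZZ (Function.update a j c j') =
      ∏ j' ∈ Finset.univ.erase j, ZZ (a j') := by
    apply Finset.prod_congr rfl
    intro j' hj'
    rw [Function.update_of_ne (Finset.ne_of_mem_erase hj')]
  rw [this, Function.update_self]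
  ring

theorem PP_update (a : Fin k → Fin s → Bool → ℝ) (i : Fin k) (c : Fin s → Bool → ℝ) :
    PP (Function.update a i c) - PP a =
      (WW (a i) - WW c) * ∏ i' ∈ Finset.univ.erase i, (1 - WW (a i')) := by
  unfold PP
  rw [← Finset.mul_prod_erase Finset.univ _ (Finset.mem_univ i),
    ← Finset.mul_prod_erase Finset.univ (fun i => 1 - WW (a i)) (Finset.mem_univ i)]
  have : ∏ i' ∈ Finset.univ.erase i, (1 - WW (Function.update a i c i')) =
      ∏ i' ∈ Finset.univ.erase i, (1 - WW (a i')) := by
    apply Finset.prod_congr rfl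
    intro j' hj'
    rw [Function.update_of_ne (Finset.ne_of_mem_erase hj')]
  rw [this, Function.update_self]
  ring

/-- The discrete derivative of `PP`. -/
def DD (a : Fin k → Fin s → Bool → ℝ) : ℝ := ∑ i, ∑ j, ∑ b, (PP (upd a i j b) - PP a)

/-- The derivative of `PP` along a curve whose coordinates satisfy `θ' = 1 - θ`. -/
theorem hasDerivAt_PP {θ : ℝ → Fin k → Fin s → Bool → ℝ} {τ : ℝ}
    (hθ : ∀ i j b, HasDerivAt (fun u => θ u i j b) (1 - θ τ i j b) τ) :
    HasDerivAt (fun u => PP (θ u)) (DD (θ τ)) τ := by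
  have hZ : ∀ i j, HasDerivAt (fun u => ZZ (θ u i j))
      (∑ b, (ZZ (Function.update (θ τ i j) b 1) - ZZ (θ τ i j))) τ := by
    intro i j
    rw [ZZ_upd]
    exact ((hθ i j false).mul (hθ i j true)).const_sub 1
  have hW : ∀ i, HasDerivAt (fun u => WW (θ u i))
      (∑ j, (∏ j' ∈ Finset.univ.erase j, ZZ (θ τ i j')) *
        ∑ b, (ZZ (Function.update (θ τ i j) b 1) - ZZ (θ τ i j))) τ := by
    intro i
    have := HasDerivAt.fun_finsetProd (u := Finset.univ) (f := fun j u => ZZ (θ u i j))
      (fun j _ => hZ i j)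
    simp only [smul_eq_mul] at this
    exact this
  have hP : HasDerivAt (fun u => PP (θ u))
      (∑ i, (∏ i' ∈ Finset.univ.erase i, (1 - WW (θ τ i'))) *
        (-(∑ j, (∏ j' ∈ Finset.univ.erase j, ZZ (θ τ i j')) *
        ∑ b, (ZZ (Function.update (θ τ i j) b 1) - ZZ (θ τ i j))))) τ := by
    have := HasDerivAt.fun_finsetProd (u := Finset.univ) (f := fun i u => 1 - WW (θ u i))
      (fun i _ => (hW i).const_sub 1)
    simp only [smul_eq_mul] at this
    exact this
  convert hP using 1
  unfold DD
  apply Finset.sum_congr rfl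
  intro i _
  rw [← Finset.sum_neg_distrib, Finset.mul_sum]
  apply Finset.sum_congr rfl
  intro j _
  rw [Finset.mul_sum, ← Finset.sum_neg_distrib, Finset.mul_sum]
  apply Finset.sum_congr rfl
  intro b _
  unfold upd
  rw [PP_update]
  have := WW_update (θ τ i) j (Function.update (θ τ i j) b 1)
  have e : WW (θ τ i) - WW (Function.update (θ τ i) j (Function.update (θ τ i j) b 1)) =
    -((ZZ (Function.update (θ τ i j) b 1) - ZZ (θ τ i j)) *
      ∏ j' ∈ Finset.univ.erase j, ZZ (θ τ i j')) := by linarith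
  rw [e]
  ring

theorem ZZ_mem {a : Bool → ℝ} (ha : ∀ b, 0 ≤ a b ∧ a b ≤ 1) : 0 ≤ ZZ a ∧ ZZ a ≤ 1 := by
  unfold ZZ
  have h0 := ha false
  have h1 := ha true
  constructor
  · nlinarith [mul_le_mul h0.2 h1.2 h1.1 (by norm_num : (0 : ℝ) ≤ 1)]
  · nlinarith [mul_nonneg h0.1 h1.1]

theorem WW_mem {a : Fin s → Bool → ℝ} (ha : ∀ j b, 0 ≤ a j b ∧ a j b ≤ 1) :
    0 ≤ WW a ∧ WW a ≤ 1 := by
  unfold WW
  exact ⟨Finset.prod_nonneg fun j _ => (ZZ_mem (ha j)).1,
    Finset.prod_le_one (fun j _ => (ZZ_mem (ha j)).1) fun j _ => (ZZ_mem (ha j)).2⟩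

theorem PP_nonneg {a : Fin k → Fin s → Bool → ℝ} (ha : ∀ i j b, 0 ≤ a i j b ∧ a i j b ≤ 1) :
    0 ≤ PP a := by
  unfold PP
  exact Finset.prod_nonneg fun i _ => by linarith [(WW_mem (ha i)).2]

/-- The opening probabilities at time `τ` given the open set `O`. -/
noncomputable def th (τ : ℝ) (O : Finset (Sym2 (NV k s))) (i : Fin k) (j : Fin s) (b : Bool) : ℝ :=
  if ed i j b ∈ O then 1 else 1 - Real.exp (-τ)

theorem th_mem {τ : ℝ} (hτ : 0 ≤ τ) (O : Finset (Sym2 (NV k s))) (i : Fin k) (j : Fin s)
    (b : Bool) : 0 ≤ th τ O i j b ∧ th τ O i j b ≤ 1 := by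
  unfold th
  have h1 : Real.exp (-τ) ≤ 1 := Real.exp_le_one_iff.mpr (by linarith)
  have h2 := Real.exp_pos (-τ)
  split_ifs
  · norm_num
  · constructor <;> linarith

theorem th_deriv (τ : ℝ) (O : Finset (Sym2 (NV k s))) (i : Fin k) (j : Fin s) (b : Bool) :
    HasDerivAt (fun u => th u O i j b) (1 - th τ O i j b) τ := by
  unfold th
  split_ifs
  · simpa using hasDerivAt_const τ (1 : ℝ)
  · have h1 : HasDerivAt (fun u : ℝ => -u) (-1) τ := hasDerivAt_neg τ
    have h2 := (h1.exp).const_sub 1
    simpa using h2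

theorem th_insert (τ : ℝ) (O : Finset (Sym2 (NV k s))) (i : Fin k) (j : Fin s) (b : Bool) :
    th τ (insert (ed i j b) O) = upd (th τ O) i j b := by
  funext i' j' b'
  by_cases h : i' = i ∧ j' = j ∧ b' = b
  · obtain ⟨rfl, rfl, rfl⟩ := h
    unfold th upd
    rw [if_pos (Finset.mem_insert_self _ _), Function.update_self, Function.update_self,
      Function.update_self]
  · have hne : ed i' j' b' ≠ (ed i j b : Sym2 (NV k s)) := fun he => h (ed_inj he)
    have h1 : th τ (insert (ed i j b) O) i' j' b' = th τ O i' j' b' := by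
      unfold th
      have : ed i' j' b' ∈ insert (ed i j b) O ↔ ed i' j' b' ∈ O := by
        rw [Finset.mem_insert]
        exact ⟨fun h => h.resolve_left hne, Or.inr⟩
      simp only [this]
    rw [h1]
    unfold upd
    by_cases hi : i' = i
    · subst hi
      rw [Function.update_self]
      by_cases hj : j' = j
      · subst hj
        rw [Function.update_self]
        have hb : b' ≠ b := fun hb => h ⟨rfl, rfl, hb⟩
        rw [Function.update_of_ne hb]
      · rw [Function.update_of_ne hj]
    · rw [Function.update_of_ne hi]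

theorem upd_of_mem {τ : ℝ} {O : Finset (Sym2 (NV k s))} {i : Fin k} {j : Fin s} {b : Bool}
    (h : ed i j b ∈ O) : upd (th τ O) i j b = th τ O := by
  rw [← th_insert, Finset.insert_eq_self.mpr h]

/-- The space-time subsolution. -/
noncomputable def gsub (α κ τ : ℝ) (st : Finset (NV k s) × Finset (Sym2 (NV k s))) : ℝ :=
  if st.1 = ∅ ∧ ∀ b, en b ∉ st.2 then α / (α + 2) * Real.exp (-κ * τ) * PP (th τ st.2) else 0

/-- Its time derivative. -/
noncomputable def gsub' (α κ τ : ℝ) (st : Finset (NV k s) × Finset (Sym2 (NV k s))) : ℝ :=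
  if st.1 = ∅ ∧ ∀ b, en b ∉ st.2 then
    α / (α + 2) * Real.exp (-κ * τ) * (DD (th τ st.2) - κ * PP (th τ st.2)) else 0

theorem gsub_deriv (α κ τ : ℝ) (st : Finset (NV k s) × Finset (Sym2 (NV k s))) :
    HasDerivAt (fun u => gsub α κ u st) (gsub' α κ τ st) τ := by
  unfold gsub gsub'
  split_ifs with h
  · have h1 : HasDerivAt (fun u : ℝ => -κ * u) (-κ) τ := by
      simpa using (hasDerivAt_id τ).const_mul (-κ)
    have h2 := (h1.exp.const_mul (α / (α + 2))).mul
      (hasDerivAt_PP (fun i j b => th_deriv τ st.2 i j b))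
    have e : α / (α + 2) * Real.exp (-κ * τ) * (DD (th τ st.2) - κ * PP (th τ st.2)) =
        α / (α + 2) * (Real.exp (-κ * τ) * -κ) * PP (th τ st.2) +
          α / (α + 2) * Real.exp (-κ * τ) * DD (th τ st.2) := by ring
    rw [e]
    exact h2
  · exact hasDerivAt_const τ 0

theorem gsub_nonneg {α κ τ : ℝ} (hα : 0 < α) (hτ : 0 ≤ τ)
    (st : Finset (NV k s) × Finset (Sym2 (NV k s))) : 0 ≤ gsub α κ τ st := by
  unfold gsub
  split_ifs
  · exact mul_nonneg (mul_nonneg (by positivity) (Real.exp_pos _).le)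
      (PP_nonneg fun i j b => th_mem hτ _ _ _ _)
  · exact le_rfl

theorem gsub_sub {α τ : ℝ} (hα : 0 < α) (hτ : 0 ≤ τ)
    (st : Finset (NV k s) × Finset (Sym2 (NV k s))) :
    gsub' α (2 + α * Fintype.card (NV k s)) τ st ≤
      (CTMC.gen (rate (necklace k s) α) *ᵥ gsub α (2 + α * Fintype.card (NV k s)) τ) st := by
  obtain ⟨F, O⟩ := st
  set κ : ℝ := 2 + α * Fintype.card (NV k s) with hκ
  rw [gen_apply]
  by_cases h : F = ∅ ∧ ∀ b, en b ∉ O
  · obtain ⟨rfl, hO⟩ := h
    set c : ℝ := α / (α + 2) * Real.exp (-κ * τ) with hc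
    have hcpos : 0 < c := mul_pos (by positivity) (Real.exp_pos _)
    have hPP : 0 ≤ PP (th τ O) := PP_nonneg fun i j b => th_mem hτ _ _ _ _
    have v0 : gsub α κ τ (∅, O) = c * PP (th τ O) := if_pos ⟨rfl, hO⟩
    have v0' : gsub' α κ τ (∅, O) = c * (DD (th τ O) - κ * PP (th τ O)) := if_pos ⟨rfl, hO⟩
    have v1 : ∀ i j b, gsub α κ τ (∅, insert (ed i j b) O) = c * PP (upd (th τ O) i j b) := by
      intro i j b
      have hO' : ∀ b', en b' ∉ insert (ed i j b) O := by
        intro b'
        rw [Finset.mem_insert]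
        rintro (h | h)
        · exact ed_ne_en i j b b' h.symm
        · exact hO b' h
      have : gsub α κ τ (∅, insert (ed i j b) O) = c * PP (th τ (insert (ed i j b) O)) :=
        if_pos ⟨rfl, hO'⟩
      rw [this, th_insert]
    -- clusters
    have hclus : -((Fintype.card (NV k s) : ℝ) * (c * PP (th τ O))) ≤
        ∑ C ∈ warmClusters ∅ O, (gsub α κ τ (∅ ∪ C, O) - gsub α κ τ (∅, O)) := by
      have hterm : ∀ C ∈ warmClusters ∅ O,
          gsub α κ τ (∅ ∪ C, O) - gsub α κ τ (∅, O) = -(c * PP (th τ O)) := by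
        intro C hC
        obtain ⟨v, _, rfl⟩ := mem_warmClusters.mp hC
        have : gsub α κ τ (∅ ∪ cluster O v, O) = 0 := by
          apply if_neg
          rintro ⟨h, _⟩
          have hv : v ∈ ∅ ∪ cluster O v := Finset.mem_union_right _ (mem_cluster_self O v)
          simp only at h
          rw [h] at hv
          exact absurd hv (Finset.notMem_empty v)
        rw [this, v0]; ring
      rw [Finset.sum_congr rfl hterm, Finset.sum_const, nsmul_eq_mul, mul_neg, neg_le_neg_iff]
      apply mul_le_mul_of_nonneg_right _ (mul_nonneg hcpos.le hPP)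
      exact_mod_cast card_warmClusters_le ∅ O
    -- edges
    have hedge : c * DD (th τ O) - 2 * (c * PP (th τ O)) ≤
        ∑ e ∈ openable (necklace k s) ∅ O, (gsub α κ τ (∅, insert e O) - gsub α κ τ (∅, O)) := by
      set inner : Finset (Sym2 (NV k s)) :=
        ((Finset.univ : Finset (Fin k × Fin s × Bool)).filter fun x => ed x.1 x.2.1 x.2.2 ∉ O).image
          (fun x => ed x.1 x.2.1 x.2.2) with hinner
      have hsub : inner ⊆ openable (necklace k s) ∅ O := by
        intro e he
        rw [hinner, Finset.mem_image] at he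
        obtain ⟨x, hx, rfl⟩ := he
        rw [mem_openable, edgeSet_necklace]
        exact ⟨Or.inl ⟨_, _, _, rfl⟩, (Finset.mem_filter.mp hx).2, fun _ _ => Finset.notMem_empty _⟩
      rw [← Finset.sum_sdiff hsub]
      have h1 : ∑ e ∈ inner, (gsub α κ τ (∅, insert e O) - gsub α κ τ (∅, O)) =
          c * DD (th τ O) := by
        rw [hinner, Finset.sum_image]
        · have e1 : ∀ x : Fin k × Fin s × Bool,
              gsub α κ τ (∅, insert (ed x.1 x.2.1 x.2.2) O) - gsub α κ τ (∅, O) =
                c * (PP (upd (th τ O) x.1 x.2.1 x.2.2) - PP (th τ O)) := by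
            intro x
            rw [v1, v0]; ring
          simp only [e1]
          rw [← Finset.mul_sum]
          congr 1
          have e2 : ∑ x : Fin k × Fin s × Bool,
              (PP (upd (th τ O) x.1 x.2.1 x.2.2) - PP (th τ O)) = DD (th τ O) := by
            unfold DD
            rw [Fintype.sum_prod_type]
            apply Finset.sum_congr rfl
            intro i _
            rw [Fintype.sum_prod_type]
          rw [← e2]
          apply Finset.sum_subset (Finset.filter_subset _ _)
          intro x _ hx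
          have hx' : ed x.1 x.2.1 x.2.2 ∈ O := by
            by_contra hcon
            exact hx (Finset.mem_filter.mpr ⟨Finset.mem_univ _, hcon⟩)
          rw [upd_of_mem hx', sub_self]
        · intro x _ y _ hxy
          obtain ⟨a1, a2, a3⟩ := ed_inj hxy
          exact Prod.ext a1 (Prod.ext a2 a3)
      have h2 : -(2 * (c * PP (th τ O))) ≤ ∑ e ∈ openable (necklace k s) ∅ O \ inner,
          (gsub α κ τ (∅, insert e O) - gsub α κ τ (∅, O)) := by
        have hcard : (openable (necklace k s) ∅ O \ inner).card ≤ 2 := by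
          calc _ ≤ (Finset.univ.image (en : Bool → Sym2 (NV k s))).card := by
                apply Finset.card_le_card
                intro e he
                rw [Finset.mem_sdiff, mem_openable, edgeSet_necklace] at he
                obtain ⟨⟨h3, h4, _⟩, h5⟩ := he
                rcases h3 with ⟨i, j, b, rfl⟩ | ⟨b, rfl⟩
                · exact absurd (Finset.mem_image.mpr ⟨(i, j, b),
                    Finset.mem_filter.mpr ⟨Finset.mem_univ _, h4⟩, rfl⟩) h5
                · exact Finset.mem_image.mpr ⟨b, Finset.mem_univ _, rfl⟩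
            _ ≤ (Finset.univ : Finset Bool).card := Finset.card_image_le
            _ = 2 := rfl
        have hterm : ∀ e ∈ openable (necklace k s) ∅ O \ inner, -(c * PP (th τ O)) ≤
            gsub α κ τ (∅, insert e O) - gsub α κ τ (∅, O) := by
          intro e _
          rw [v0]
          linarith [gsub_nonneg (κ := κ) hα hτ (∅, insert e O)]
        refine le_trans ?_ (Finset.sum_le_sum hterm)
        rw [Finset.sum_const, nsmul_eq_mul, mul_neg, neg_le_neg_iff]
        apply mul_le_mul_of_nonneg_right _ (mul_nonneg hcpos.le hPP)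
        exact_mod_cast hcard
      linarith
    rw [v0']
    have h5 := mul_le_mul_of_nonneg_left hclus hα.le
    have e : c * (DD (th τ O) - κ * PP (th τ O)) = (c * DD (th τ O) - 2 * (c * PP (th τ O))) +
        α * -((Fintype.card (NV k s) : ℝ) * (c * PP (th τ O))) := by
      rw [hκ]; ring
    rw [e]
    linarith
  · have v0 : gsub α κ τ (F, O) = 0 := if_neg h
    have v0' : gsub' α κ τ (F, O) = 0 := if_neg h
    rw [v0, v0']
    apply add_nonneg
    · exact Finset.sum_nonneg fun e _ => by linarith [gsub_nonneg (κ := κ) hα hτ (F, insert e O)]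
    · exact mul_nonneg hα.le
        (Finset.sum_nonneg fun C _ => by linarith [gsub_nonneg (κ := κ) hα hτ (F ∪ C, O)])

theorem gsub_zero_le {α κ : ℝ} (hα : 0 < α) (st : Finset (NV k s) × Finset (Sym2 (NV k s))) :
    gsub α κ 0 st ≤ hlow α st := by
  by_cases h : st.1 = ∅ ∧ ∀ b, en b ∉ st.2
  · have v0 : gsub α κ 0 st = α / (α + 2) * Real.exp (-κ * 0) * PP (th 0 st.2) := if_pos h
    rw [v0, mul_zero, Real.exp_zero, mul_one]
    by_cases hl : ∀ i : Fin k, ∃ j : Fin s, ed i j false ∈ st.2 ∧ ed i j true ∈ st.2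
    · have h1 : α / (α + 2) ≤ hlow α st := by
        unfold hlow
        split_ifs with h2 h3
        · rw [div_le_one (by positivity)]; linarith
        · exact le_rfl
        · exact absurd ⟨conn_of_links hl, h.2⟩ h3
      have h2 : PP (th 0 st.2) ≤ 1 := by
        unfold PP
        apply Finset.prod_le_one
        · intro i _
          linarith [(WW_mem (a := th 0 st.2 i) (fun j b => th_mem le_rfl _ _ _ _)).2]
        · intro i _
          linarith [(WW_mem (a := th 0 st.2 i) (fun j b => th_mem le_rfl _ _ _ _)).1]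
      calc α / (α + 2) * PP (th 0 st.2) ≤ α / (α + 2) * 1 :=
            mul_le_mul_of_nonneg_left h2 (by positivity)
        _ ≤ _ := by rw [mul_one]; exact h1
    · push Not at hl
      obtain ⟨i, hi⟩ := hl
      have hW : WW (th 0 st.2 i) = 1 := by
        unfold WW
        apply Finset.prod_eq_one
        intro j _
        unfold ZZ
        by_cases h1 : ed i j false ∈ st.2
        · have h2 := hi j h1
          have : th 0 st.2 i j true = 0 := by
            unfold th; rw [if_neg h2]; simp
          rw [this]; ring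
        · have : th 0 st.2 i j false = 0 := by
            unfold th; rw [if_neg h1]; simp
          rw [this]; ring
      have hP : PP (th 0 st.2) = 0 := by
        unfold PP
        apply Finset.prod_eq_zero (Finset.mem_univ i)
        rw [hW]; ring
      rw [hP, mul_zero]
      exact hlow_nonneg hα st
  · have v0 : gsub α κ 0 st = 0 := if_neg h
    rw [v0]
    exact hlow_nonneg hα st

theorem gsub_start {α κ τ : ℝ} : gsub α κ τ ((∅, ∅) : Finset (NV k s) × Finset (Sym2 (NV k s))) =
    α / (α + 2) * Real.exp (-κ * τ) * (1 - (1 - (1 - Real.exp (-τ)) ^ 2) ^ s) ^ k := by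
  have v0 : gsub α κ τ ((∅, ∅) : Finset (NV k s) × Finset (Sym2 (NV k s))) =
      α / (α + 2) * Real.exp (-κ * τ) * PP (th τ ∅ : Fin k → Fin s → Bool → ℝ) :=
    if_pos ⟨rfl, fun b => Finset.notMem_empty _⟩
  rw [v0]
  congr 1
  have e : ∀ i j b, (th τ (∅ : Finset (Sym2 (NV k s))) i j b) = 1 - Real.exp (-τ) := by
    intro i j b
    unfold th
    rw [if_neg (Finset.notMem_empty _)]
  simp only [PP, WW, ZZ, e, Finset.prod_const, Finset.card_univ, Fintype.card_fin]
  rw [sq]

/-- Lower bound for the probability that both end edges stay closed. -/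
theorem lower_bound {α t : ℝ} (hα : 0 < α) (ht : 0 ≤ t) {μ : Finset (Sym2 (NV k s)) → ℝ}
    (hμ : IsFinalLaw (necklace k s) α μ) :
    α / (α + 2) * Real.exp (-(2 + α * Fintype.card (NV k s)) * t) *
      (1 - (1 - (1 - Real.exp (-t)) ^ 2) ^ s) ^ k ≤ prob μ (endsClosed k s) := by
  rw [← gsub_start]
  apply le_prob_of_subsolution hα hμ (endsClosed k s) (hlow_sub hα) _ ht
    (g' := gsub' α (2 + α * Fintype.card (NV k s)))
    (fun τ _ y => gsub_deriv _ _ _ y) (fun τ hτ x => gsub_sub hα hτ.1 x) (gsub_zero_le hα)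
  intro O
  by_cases hO : O ∈ endsClosed k s
  · rw [Set.indicator_of_mem hO]
    exact hlow_le_one hα _
  · rw [Set.indicator_of_notMem hO]
    unfold hlow
    rw [if_neg, if_neg]
    · rintro ⟨_, h⟩; exact hO h
    · intro h; exact hO fun b => (h b).1

end Pool.Agent.Q288.PCF
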