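import Mathlib
import Pool.Agent.Q288.PCF.Necklace

/-! # The upper bound for the necklace: some chain vertex freezes before it is touched -/

open Filter Topology Matrix
open scoped Classical

set_option linter.unusedSectionVars false
set_option linter.unusedVariables false

namespace Pool.Agent.Q288.PCF

open Pool.Agent.Q288

variable {k s : ℕ}

/-- All edges in `O` are edges of the necklace. -/
def legal (O : Finset (Sym2 (NV k s))) : Prop := ∀ e ∈ O, e ∈ edges k s

/-- Some edge in `O` contains `v_i`. -/
def touched (i : Fin (k + 1)) (O : Finset (Sym2 (NV k s))) : Prop := ∃ e ∈ O, (vv i : NV k s) ∈ e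

/-- The interior chain vertices. -/
def mid (k : ℕ) : Finset (Fin (k + 1)) := Finset.univ.filter fun i => i ≠ 0 ∧ i ≠ Fin.last k

theorem mem_mid {i : Fin (k + 1)} : i ∈ mid k ↔ i ≠ 0 ∧ i ≠ Fin.last k := by simp [mid]

/-- The part of the vertex set to the left of `v_i`. -/
def left (i : Fin (k + 1)) : NV k s → Prop
  | Sum.inl j => j.val < i.val
  | Sum.inr (Sum.inl x) => x.1.val < i.val
  | Sum.inr (Sum.inr b) => b = false

theorem left_of_edge {i : Fin (k + 1)} (hi : i ∈ mid k) {e : Sym2 (NV k s)} (he : e ∈ edges k s)
    (hn : (vv i : NV k s) ∉ e) {a b : NV k s} (hab : e = s(a, b)) : left i a ↔ left i b := by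
  rw [mem_mid] at hi
  have h0 : 0 < i.val := Nat.pos_of_ne_zero fun h => hi.1 (Fin.ext h)
  have h1 : i.val < k := by
    have := i.isLt
    have h2 : i.val ≠ k := fun h => hi.2 (Fin.ext (by simpa using h))
    omega
  rcases he with ⟨i', j, b', rfl⟩ | ⟨b', rfl⟩
  · have hkey : left i (vv (idx i' b') : NV k s) ↔ left i (yy i' j : NV k s) := by
      rw [vv_mem_ed] at hn
      cases b'
      · show (idx i' false).val < i.val ↔ i'.val < i.val
        simp [idx]
      · show (idx i' true).val < i.val ↔ i'.val < i.val
        have h3 : (i'.succ).val ≠ i.val := fun h => hn (Fin.ext (by simpa [idx] using h.symm))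
        simp only [Fin.val_succ] at h3
        simp only [idx, if_true, Fin.val_succ]
        omega
    unfold ed at hab
    rw [Sym2.eq_iff] at hab
    rcases hab with ⟨rfl, rfl⟩ | ⟨rfl, rfl⟩
    · exact hkey
    · exact hkey.symm
  · have hkey : left i (xx b' : NV k s) ↔ left i (uu b' : NV k s) := by
      cases b'
      · show (false = false) ↔ (0 : Fin (k + 1)).val < i.val
        simpa using h0
      · show (true = false) ↔ (Fin.last k).val < i.val
        simp only [Fin.val_last]
        constructor
        · intro h; cases h
        · intro h; omega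
    unfold en at hab
    rw [Sym2.eq_iff] at hab
    rcases hab with ⟨rfl, rfl⟩ | ⟨rfl, rfl⟩
    · exact hkey
    · exact hkey.symm

theorem touched_of_conn {O : Finset (Sym2 (NV k s))} (hO : legal O) (hc : conn O)
    {i : Fin (k + 1)} (hi : i ∈ mid k) : touched i O := by
  by_contra hn
  have hadj : ∀ a b : NV k s, (SimpleGraph.fromEdgeSet (O : Set (Sym2 (NV k s)))).Adj a b →
      (left i a ↔ left i b) := by
    intro a b hab
    rw [SimpleGraph.fromEdgeSet_adj] at hab
    have hmem : s(a, b) ∈ O := by exact_mod_cast hab.1
    exact left_of_edge hi (hO _ hmem) (fun h => hn ⟨_, hmem, h⟩) rfl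
  have hreach : ∀ a b : NV k s,
      (SimpleGraph.fromEdgeSet (O : Set (Sym2 (NV k s)))).Reachable a b →
      (left i a ↔ left i b) := by
    rintro a b ⟨p⟩
    induction p with
    | nil => exact Iff.rfl
    | cons h _ ih => exact (hadj _ _ h).trans ih
  have h := hreach _ _ hc
  rw [mem_mid] at hi
  have h0 : 0 < i.val := Nat.pos_of_ne_zero fun h => hi.1 (Fin.ext h)
  have h1 : left i (uu false : NV k s) := by
    show (0 : Fin (k + 1)).val < i.val
    simpa using h0
  have h2 : ¬ left i (uu true : NV k s) := by
    show ¬ (Fin.last k).val < i.val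
    have := i.isLt
    simp only [Fin.val_last]
    omega
  exact h2 (h.mp h1)

/-- At most `2 s` edges contain a given interior chain vertex. -/
theorem card_incident_le (F : Finset (NV k s)) (O : Finset (Sym2 (NV k s))) {i : Fin (k + 1)}
    (hi : i ∈ mid k) :
    ((openable (necklace k s) F O).filter fun e => (vv i : NV k s) ∈ e).card ≤ 2 * s := by
  rw [mem_mid] at hi
  let ii : Bool → Fin k := fun b => if b then i.pred hi.1 else i.castPred hi.2
  have hsub : ((openable (necklace k s) F O).filter fun e => (vv i : NV k s) ∈ e) ⊆
      (Finset.univ : Finset (Bool × Fin s)).image fun x => ed (ii x.1) x.2 x.1 := by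
    intro e he
    rw [Finset.mem_filter, mem_openable, edgeSet_necklace] at he
    obtain ⟨⟨he1, _, _⟩, he2⟩ := he
    rcases he1 with ⟨i', j, b, rfl⟩ | ⟨b, rfl⟩
    · rw [vv_mem_ed] at he2
      refine Finset.mem_image.mpr ⟨(b, j), Finset.mem_univ _, ?_⟩
      have : ii b = i' := by
        cases b
        · simp only [ii, idx] at he2 ⊢
          simp only [Bool.false_eq_true, if_false] at he2 ⊢
          simp only [he2, Fin.castPred_castSucc]
        · simp only [ii, idx] at he2 ⊢
          simp only [if_true] at he2 ⊢
          simp only [he2, Fin.pred_succ]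
      show ed (ii b) j b = ed i' j b
      rw [this]
    · rw [vv_mem_en] at he2
      exfalso
      cases b
      · exact hi.1 (vv_inj he2)
      · exact hi.2 (vv_inj he2)
  calc _ ≤ ((Finset.univ : Finset (Bool × Fin s)).image fun x => ed (ii x.1) x.2 x.1).card :=
        Finset.card_le_card hsub
    _ ≤ (Finset.univ : Finset (Bool × Fin s)).card := Finset.card_image_le
    _ = 2 * s := by simp

/-- An edge of the necklace contains at most one interior chain vertex. -/
theorem mid_unique {e : Sym2 (NV k s)} (he : e ∈ edges k s) {i j : Fin (k + 1)} (hi : i ∈ mid k)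
    (hj : j ∈ mid k) (hie : (vv i : NV k s) ∈ e) (hje : (vv j : NV k s) ∈ e) : i = j := by
  rw [mem_mid] at hi hj
  rcases he with ⟨i', j', b, rfl⟩ | ⟨b, rfl⟩
  · rw [vv_mem_ed] at hie hje
    rw [hie, hje]
  · rw [vv_mem_en] at hie
    exfalso
    cases b
    · exact hi.1 (vv_inj hie)
    · exact hi.2 (vv_inj hie)

theorem cluster_untouched {O : Finset (Sym2 (NV k s))} {v : NV k s} (h : ∀ e ∈ O, v ∉ e) :
    cluster O v = {v} := by
  ext u
  simp only [cluster, Finset.mem_filter, Finset.mem_univ, true_and, Finset.mem_singleton]
  constructor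
  · rintro ⟨p⟩
    cases p with
    | nil => rfl
    | cons hadj _ =>
      rw [SimpleGraph.fromEdgeSet_adj] at hadj
      exact absurd (Sym2.mem_mk_left _ _) (h _ (by exact_mod_cast hadj.1))
  · rintro rfl
    exact SimpleGraph.Reachable.refl _

/-! ### The function `w` -/

/-- One factor. -/
noncomputable def w1 (q : ℝ) (i : Fin (k + 1)) (st : Finset (NV k s) × Finset (Sym2 (NV k s))) :
    ℝ := if touched i st.2 then 1 else if (vv i : NV k s) ∈ st.1 then 0 else q

/-- The product over the interior chain vertices. -/
noncomputable def ww (q : ℝ) (st : Finset (NV k s) × Finset (Sym2 (NV k s))) : ℝ :=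
  ∏ i ∈ mid k, w1 q i st

theorem w1_mem {q : ℝ} (h0 : 0 ≤ q) (h1 : q ≤ 1) (i : Fin (k + 1))
    (st : Finset (NV k s) × Finset (Sym2 (NV k s))) : 0 ≤ w1 q i st ∧ w1 q i st ≤ 1 := by
  unfold w1
  split_ifs <;> [norm_num; norm_num; exact ⟨h0, h1⟩]

theorem ww_nonneg {q : ℝ} (h0 : 0 ≤ q) (h1 : q ≤ 1)
    (st : Finset (NV k s) × Finset (Sym2 (NV k s))) : 0 ≤ ww q st :=
  Finset.prod_nonneg fun i _ => (w1_mem h0 h1 i st).1

theorem touched_insert {i : Fin (k + 1)} {O : Finset (Sym2 (NV k s))} {e : Sym2 (NV k s)} :
    touched i (insert e O) ↔ (vv i : NV k s) ∈ e ∨ touched i O := by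
  unfold touched
  constructor
  · rintro ⟨f, hf, hv⟩
    rcases Finset.mem_insert.mp hf with rfl | hf
    · exact Or.inl hv
    · exact Or.inr ⟨f, hf, hv⟩
  · rintro (h | ⟨f, hf, hv⟩)
    · exact ⟨e, Finset.mem_insert_self _ _, h⟩
    · exact ⟨f, Finset.mem_insert_of_mem hf, hv⟩

theorem gen_ww {β : ℝ} (hβ : 0 < β) (hs : 0 < s)
    (F : Finset (NV k s)) (O : Finset (Sym2 (NV k s))) :
    ∑ e ∈ openable (necklace k s) F O,
      (ww (2 * s / (β + 2 * s)) (F, insert e O) - ww (2 * s / (β + 2 * s)) (F, O)) +
    β * ∑ C ∈ warmClusters F O,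
      (ww (2 * s / (β + 2 * s)) (F ∪ C, O) - ww (2 * s / (β + 2 * s)) (F, O)) ≤ 0 := by
  set Δ : ℝ := 2 * s with hΔ
  have hsr : (0 : ℝ) < s := by exact_mod_cast hs
  have hΔpos : 0 < Δ := by positivity
  set q : ℝ := Δ / (β + Δ) with hq
  have hq0 : 0 < q := by positivity
  have hq1 : q ≤ 1 := by rw [hq, div_le_one (by positivity)]; linarith
  by_cases hA : ∃ i ∈ mid k, ¬ touched i O ∧ (vv i : NV k s) ∈ F
  · obtain ⟨i, hi, hu, hF⟩ := hA
    have z0 : ww q (F, O) = 0 := by
      apply Finset.prod_eq_zero hi
      unfold w1
      rw [if_neg hu, if_pos hF]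
    have z1 : ∀ e ∈ openable (necklace k s) F O, ww q (F, insert e O) = 0 := by
      intro e he
      apply Finset.prod_eq_zero hi
      unfold w1
      rw [if_neg, if_pos hF]
      rw [touched_insert]
      rintro (h | h)
      · exact (mem_openable.mp he).2.2 _ h hF
      · exact hu h
    have z2 : ∀ C ∈ warmClusters F O, ww q (F ∪ C, O) = 0 := by
      intro C _
      apply Finset.prod_eq_zero hi
      unfold w1
      rw [if_neg hu, if_pos (Finset.mem_union_left _ hF)]
    rw [Finset.sum_eq_zero (fun e he => by rw [z1 e he, z0, sub_zero]),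
      Finset.sum_eq_zero (fun C hC => by rw [z2 C hC, z0, sub_zero])]
    simp
  · push Not at hA
    set w : ℝ := ww q (F, O) with hw
    have hw0 : 0 ≤ w := ww_nonneg hq0.le hq1 _
    set U : Finset (Fin (k + 1)) := (mid k).filter fun i => ¬ touched i O with hU
    have hUF : ∀ i ∈ U, (vv i : NV k s) ∉ F := by
      intro i hi
      rw [hU, Finset.mem_filter] at hi
      exact hA i hi.1 hi.2
    -- edges
    have hterm : ∀ e ∈ openable (necklace k s) F O, ww q (F, insert e O) - w ≤
        ∑ i ∈ U, if (vv i : NV k s) ∈ e then w * (β / Δ) else 0 := by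
      intro e he
      have hee : e ∈ edges k s := by
        rw [← edgeSet_necklace]; exact (mem_openable.mp he).1
      by_cases hex : ∃ i ∈ U, (vv i : NV k s) ∈ e
      · obtain ⟨i, hi, hie⟩ := hex
        have hi' : i ∈ mid k ∧ ¬ touched i O := by
          rw [hU, Finset.mem_filter] at hi; exact hi
        have e1 : ww q (F, insert e O) = ∏ j ∈ (mid k).erase i, w1 q j (F, O) := by
          unfold ww
          rw [← Finset.mul_prod_erase _ _ hi'.1]
          have : w1 q i (F, insert e O) = 1 := by
            unfold w1
            rw [if_pos]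
            exact touched_insert.mpr (Or.inl hie)
          rw [this, one_mul]
          apply Finset.prod_congr rfl
          intro j hj
          have hji : j ≠ i := Finset.ne_of_mem_erase hj
          have hjm : j ∈ mid k := Finset.mem_of_mem_erase hj
          have hje : (vv j : NV k s) ∉ e := fun h => hji (mid_unique hee hjm hi'.1 h hie)
          unfold w1
          have : touched j (insert e O) ↔ touched j O := by
            rw [touched_insert]
            exact ⟨fun h => h.resolve_left hje, Or.inr⟩
          simp only [this]
        have e2 : w = q * ∏ j ∈ (mid k).erase i, w1 q j (F, O) := by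
          rw [hw]
          unfold ww
          rw [← Finset.mul_prod_erase _ _ hi'.1]
          congr 1
          unfold w1
          rw [if_neg hi'.2, if_neg (hUF i hi)]
        have e3 : ww q (F, insert e O) - w = w * (β / Δ) := by
          rw [e1, e2, hq]
          field_simp
          ring
        rw [e3]
        calc w * (β / Δ) = (if (vv i : NV k s) ∈ e then w * (β / Δ) else 0) := by rw [if_pos hie]
          _ ≤ _ := Finset.single_le_sum (f := fun i => if (vv i : NV k s) ∈ e then w * (β / Δ)
              else 0) (fun j _ => by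
                split_ifs
                · exact mul_nonneg hw0 (by positivity)
                · exact le_rfl) hi
      · push Not at hex
        have e1 : ww q (F, insert e O) = w := by
          rw [hw]
          unfold ww
          apply Finset.prod_congr rfl
          intro j hj
          by_cases hjt : touched j O
          · unfold w1
            rw [if_pos hjt, if_pos (touched_insert.mpr (Or.inr hjt))]
          · have hje : (vv j : NV k s) ∉ e := hex j (by
              rw [hU, Finset.mem_filter]; exact ⟨hj, hjt⟩)
            unfold w1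
            have : touched j (insert e O) ↔ touched j O := by
              rw [touched_insert]
              exact ⟨fun h => h.resolve_left hje, Or.inr⟩
            simp only [this]
        rw [e1, sub_self]
        apply Finset.sum_nonneg
        intro j _
        split_ifs
        · exact mul_nonneg hw0 (by positivity)
        · exact le_rfl
    have hedges : ∑ e ∈ openable (necklace k s) F O, (ww q (F, insert e O) - w) ≤
        U.card * (w * β) := by
      refine (Finset.sum_le_sum hterm).trans ?_
      rw [Finset.sum_comm, ← nsmul_eq_mul, ← Finset.sum_const]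
      apply Finset.sum_le_sum
      intro i hi
      rw [← Finset.sum_filter, Finset.sum_const, nsmul_eq_mul]
      have hi' : i ∈ mid k := by
        rw [hU, Finset.mem_filter] at hi; exact hi.1
      have h1 : (((openable (necklace k s) F O).filter fun e => (vv i : NV k s) ∈ e).card : ℝ) ≤ Δ
        := by
        rw [hΔ]
        exact_mod_cast card_incident_le F O hi'
      calc _ ≤ Δ * (w * (β / Δ)) := mul_le_mul_of_nonneg_right h1 (mul_nonneg hw0 (by positivity))
        _ = w * β := by field_simp
    -- clusters
    have hC1 : ∀ C ∈ warmClusters F O, ww q (F ∪ C, O) ≤ w := by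
      intro C _
      apply Finset.prod_le_prod
      · intro i _; exact (w1_mem hq0.le hq1 _ _).1
      · intro i hi
        unfold w1
        by_cases h1 : touched i O
        · rw [if_pos h1, if_pos h1]
        · rw [if_neg h1, if_neg h1, if_neg (hA i hi h1)]
          split_ifs <;> [exact hq0.le; exact le_rfl]
    have hsubU : U.image (fun i => ({vv i} : Finset (NV k s))) ⊆ warmClusters F O := by
      intro C hC
      obtain ⟨i, hi, rfl⟩ := Finset.mem_image.mp hC
      refine mem_warmClusters.mpr ⟨vv i, hUF i hi, ?_⟩
      apply cluster_untouched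
      intro e he hv
      rw [hU, Finset.mem_filter] at hi
      exact hi.2 ⟨e, he, hv⟩
    have hclus : ∑ C ∈ warmClusters F O, (ww q (F ∪ C, O) - w) ≤ -(U.card * w) := by
      rw [← Finset.sum_sdiff hsubU]
      have h1 : ∑ C ∈ warmClusters F O \ U.image (fun i => ({vv i} : Finset (NV k s))),
          (ww q (F ∪ C, O) - w) ≤ 0 := by
        apply Finset.sum_nonpos
        intro C hC
        linarith [hC1 C (Finset.mem_sdiff.mp hC).1]
      have h2 : ∑ C ∈ U.image (fun i => ({vv i} : Finset (NV k s))), (ww q (F ∪ C, O) - w) =
          -(U.card * w) := by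
        rw [Finset.sum_image]
        · rw [← mul_neg, ← nsmul_eq_mul, ← Finset.sum_const]
          apply Finset.sum_congr rfl
          intro i hi
          have hi' : i ∈ mid k ∧ ¬ touched i O := by
            rw [hU, Finset.mem_filter] at hi; exact hi
          have : ww q (F ∪ {vv i}, O) = 0 := by
            apply Finset.prod_eq_zero hi'.1
            unfold w1
            rw [if_neg hi'.2, if_pos (Finset.mem_union_right _ (Finset.mem_singleton_self _))]
          rw [this, zero_sub]
        · intro i _ j _ hij
          exact vv_inj (Finset.singleton_injective hij)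
      linarith
    have h5 := mul_le_mul_of_nonneg_left hclus hβ.le
    have h6 : (U.card : ℝ) * (w * β) + β * -(U.card * w) = 0 := by ring
    linarith

end Pool.Agent.Q288.PCF
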