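import Mathlib
import Pool.Agent.Q288.PCF.Upper

/-! # The upper bound for the necklace, second part -/

open Filter Topology Matrix
open scoped Classical

set_option linter.unusedSectionVars false
set_option linter.unusedVariables false

namespace Pool.Agent.Q288.PCF

open Pool.Agent.Q288

variable {k s : ℕ}

/-- The end `b` can still open. -/
def alive (b : Bool) (F : Finset (NV k s)) : Prop := xx b ∉ F ∧ uu b ∉ F

/-- One factor of the second function. -/
noncomputable def z1 (ζ : ℝ) (b : Bool) (st : Finset (NV k s) × Finset (Sym2 (NV k s))) : ℝ :=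
  if en b ∈ st.2 then 0 else if alive b st.1 then ζ else 1

/-- The product of the two factors. -/
noncomputable def zz (ζ : ℝ) (st : Finset (NV k s) × Finset (Sym2 (NV k s))) : ℝ :=
  z1 ζ false st * z1 ζ true st

theorem z1_mem {ζ : ℝ} (h0 : 0 ≤ ζ) (h1 : ζ ≤ 1) (b : Bool)
    (st : Finset (NV k s) × Finset (Sym2 (NV k s))) : 0 ≤ z1 ζ b st ∧ z1 ζ b st ≤ 1 := by
  unfold z1
  split_ifs <;> [norm_num; exact ⟨h0, h1⟩; norm_num]

theorem xx_not_mem {O : Finset (Sym2 (NV k s))} (hO : legal O) {b : Bool} (hb : en b ∉ O) :
    ∀ e ∈ O, (xx b : NV k s) ∉ e := by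
  intro e he hx
  rcases hO e he with ⟨i, j, b', rfl⟩ | ⟨b', rfl⟩
  · unfold ed at hx
    rw [Sym2.mem_iff] at hx
    rcases hx with hx | hx
    · exact vv_ne_xx _ _ hx.symm
    · exact yy_ne_xx _ _ _ hx.symm
  · unfold en at hx
    rw [Sym2.mem_iff] at hx
    rcases hx with hx | hx
    · obtain rfl := xx_inj hx
      exact hb he
    · obtain ⟨i, hi⟩ := uu_eq (k := k) (s := s) b'
      rw [hi] at hx
      exact vv_ne_xx _ _ hx.symm

theorem cluster_eq_of_mem {O : Finset (Sym2 (NV k s))} {v u : NV k s} (h : u ∈ cluster O v) :
    cluster O v = cluster O u := by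
  simp only [cluster, Finset.mem_filter, Finset.mem_univ, true_and] at h
  ext x
  simp only [cluster, Finset.mem_filter, Finset.mem_univ, true_and]
  exact ⟨fun h' => h.symm.trans h', fun h' => h.trans h'⟩

/-- No cluster meets both ends. -/
theorem not_both {O : Finset (Sym2 (NV k s))} (hO : legal O) (hc : ¬ conn O)
    (hcl : ∀ b, en b ∉ O) (v : NV k s)
    (h0 : xx false ∈ cluster O v ∨ uu false ∈ cluster O v)
    (h1 : xx true ∈ cluster O v ∨ uu true ∈ cluster O v) : False := by
  have hx : ∀ b, (xx b : NV k s) ∈ cluster O v → cluster O v = {xx b} := by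
    intro b hb
    rw [cluster_eq_of_mem hb]
    exact cluster_untouched (xx_not_mem hO (hcl b))
  have hne : ∀ b b', (uu b : NV k s) ≠ xx b' := by
    intro b b' h
    obtain ⟨i, hi⟩ := uu_eq (k := k) (s := s) b
    rw [hi] at h
    exact vv_ne_xx _ _ h
  rcases h0 with h0 | h0
  · rw [hx false h0, Finset.mem_singleton, Finset.mem_singleton] at h1
    rcases h1 with h1 | h1
    · exact absurd (xx_inj h1) (by decide)
    · exact hne _ _ h1
  · rcases h1 with h1 | h1
    · rw [hx true h1, Finset.mem_singleton] at h0
      exact hne _ _ h0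
    · apply hc
      simp only [cluster, Finset.mem_filter, Finset.mem_univ, true_and] at h0 h1
      exact h0.symm.trans h1

theorem uu_ne_xx (b b' : Bool) : (uu b : NV k s) ≠ xx b' := by
  intro h
  obtain ⟨i, hi⟩ := uu_eq (k := k) (s := s) b
  rw [hi] at h
  exact vv_ne_xx _ _ h

theorem gen_zz {β : ℝ} (hβ : 0 < β) {F : Finset (NV k s)} {O : Finset (Sym2 (NV k s))}
    (hO : legal O) (hc : ¬ conn O) :
    ∑ e ∈ openable (necklace k s) F O,
      (zz (2 * β / (2 * β + 1)) (F, insert e O) - zz (2 * β / (2 * β + 1)) (F, O)) +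
    β * ∑ C ∈ warmClusters F O,
      (zz (2 * β / (2 * β + 1)) (F ∪ C, O) - zz (2 * β / (2 * β + 1)) (F, O)) ≤ 0 := by
  set ζ : ℝ := 2 * β / (2 * β + 1) with hζ
  have hζ0 : 0 ≤ ζ := by positivity
  have hζ1 : ζ ≤ 1 := by rw [hζ, div_le_one (by positivity)]; linarith
  by_cases hA : ∃ b, en b ∈ O
  · obtain ⟨b, hb⟩ := hA
    have z0 : ∀ st : Finset (NV k s) × Finset (Sym2 (NV k s)), en b ∈ st.2 → zz ζ st = 0 := by
      intro st hst
      unfold zz
      cases b
      · have : z1 ζ false st = 0 := if_pos hst
        rw [this, zero_mul]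
      · have : z1 ζ true st = 0 := if_pos hst
        rw [this, mul_zero]
    have e0 := z0 (F, O) hb
    rw [Finset.sum_eq_zero (fun e he => by
        rw [z0 (F, insert e O) (Finset.mem_insert_of_mem hb), e0, sub_zero]),
      Finset.sum_eq_zero (fun C hC => by rw [z0 (F ∪ C, O) hb, e0, sub_zero])]
    simp
  · push Not at hA
    set Zp : ℝ := zz ζ (F, O) with hZp
    -- values
    have hz : ∀ b, z1 ζ b (F, O) = if alive b F then ζ else 1 := fun b => if_neg (hA b)
    have hZeq : ∀ b, alive b F → Zp = ζ * z1 ζ (!b) (F, O) := by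
      intro b hb
      rw [hZp]
      unfold zz
      cases b
      · rw [hz false, if_pos hb]; rfl
      · rw [hz true, if_pos hb]
        rw [mul_comm]; rfl
    have hZ0 : 0 ≤ Zp := mul_nonneg (z1_mem hζ0 hζ1 _ _).1 (z1_mem hζ0 hζ1 _ _).1
    -- edges
    have hterm : ∀ e ∈ openable (necklace k s) F O, zz ζ (F, insert e O) - Zp ≤
        -(∑ b : Bool, if (alive b F ∧ e = en b) then Zp else 0) := by
      intro e he
      by_cases hen : ∃ b, e = en b
      · obtain ⟨b, rfl⟩ := hen
        have h1 : zz ζ (F, insert (en b) O) = 0 := by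
          unfold zz
          cases b
          · have : z1 ζ false (F, insert (en false) O) = 0 := if_pos (Finset.mem_insert_self _ _)
            rw [this, zero_mul]
          · have : z1 ζ true (F, insert (en true) O) = 0 := if_pos (Finset.mem_insert_self _ _)
            rw [this, mul_zero]
        have h2 : (∑ b' : Bool, if (alive b' F ∧ (en b : Sym2 (NV k s)) = en b') then Zp else 0)
            ≤ Zp := by
          calc _ ≤ ∑ b' : Bool, (if b' = b then Zp else 0) := by
                apply Finset.sum_le_sum
                intro b' _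
                by_cases hbb : b' = b
                · rw [if_pos hbb]
                  split_ifs <;> [exact le_rfl; exact hZ0]
                · rw [if_neg hbb, if_neg]
                  rintro ⟨_, h⟩
                  exact hbb (en_inj h).symm
            _ = Zp := by simp
        rw [h1]
        linarith
      · push Not at hen
        have h1 : zz ζ (F, insert e O) = Zp := by
          rw [hZp]
          unfold zz z1
          have : ∀ b, (en b : Sym2 (NV k s)) ∈ insert e O ↔ en b ∈ O := by
            intro b
            rw [Finset.mem_insert]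
            exact ⟨fun h => h.resolve_left fun h' => hen b h'.symm, Or.inr⟩
          simp only [this]
        have h2 : (∑ b : Bool, if (alive b F ∧ e = en b) then Zp else 0) = 0 := by
          apply Finset.sum_eq_zero
          intro b _
          rw [if_neg]
          rintro ⟨_, h⟩
          exact hen b h
        rw [h1, h2]
        simp
    have hedges : ∑ e ∈ openable (necklace k s) F O, (zz ζ (F, insert e O) - Zp) ≤
        -(∑ b : Bool, if alive b F then Zp else 0) := by
      refine (Finset.sum_le_sum hterm).trans ?_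
      rw [Finset.sum_neg_distrib, neg_le_neg_iff, Finset.sum_comm]
      apply Finset.sum_le_sum
      intro b _
      by_cases hb : alive b F
      · rw [if_pos hb]
        have hmem : en b ∈ openable (necklace k s) F O := by
          rw [mem_openable]
          refine ⟨en_mem_edgeSet b, hA b, ?_⟩
          intro v hv
          unfold en at hv
          rw [Sym2.mem_iff] at hv
          rcases hv with rfl | rfl
          · exact hb.1
          · exact hb.2
        calc Zp = (if (alive b F ∧ (en b : Sym2 (NV k s)) = en b) then Zp else 0) := by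
              rw [if_pos ⟨hb, rfl⟩]
          _ ≤ _ := Finset.single_le_sum (f := fun e => if (alive b F ∧ e = en b) then Zp else 0)
              (fun e _ => by
                show 0 ≤ (if (alive b F ∧ e = en b) then Zp else 0)
                split_ifs <;> [exact hZ0; exact le_rfl]) hmem
      · rw [if_neg hb]
        apply Finset.sum_nonneg
        intro e _
        split_ifs <;> [exact hZ0; exact le_rfl]
    -- clusters
    have hCterm : ∀ C ∈ warmClusters F O, zz ζ (F ∪ C, O) - Zp ≤
        ∑ b : Bool, if (alive b F ∧ (xx b ∈ C ∨ uu b ∈ C)) then (1 - ζ) * z1 ζ (!b) (F, O) else 0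
        := by
      intro C hC
      obtain ⟨v, hv, rfl⟩ := mem_warmClusters.mp hC
      have hal : ∀ b, ¬ (xx b ∈ cluster O v ∨ uu b ∈ cluster O v) →
          z1 ζ b (F ∪ cluster O v, O) = z1 ζ b (F, O) := by
        intro b hb
        push Not at hb
        have : alive b (F ∪ cluster O v) ↔ alive b F := by
          unfold alive
          rw [Finset.mem_union, Finset.mem_union]
          constructor
          · rintro ⟨h1, h2⟩
            exact ⟨fun h => h1 (Or.inl h), fun h => h2 (Or.inl h)⟩
          · rintro ⟨h1, h2⟩
            exact ⟨fun h => h.elim h1 hb.1, fun h => h.elim h2 hb.2⟩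
        unfold z1
        simp only [this]
      have hnn : ∀ b : Bool, 0 ≤
          (if (alive b F ∧ (xx b ∈ cluster O v ∨ uu b ∈ cluster O v)) then
            (1 - ζ) * z1 ζ (!b) (F, O) else 0) := by
        intro b
        split_ifs
        · exact mul_nonneg (by linarith) (z1_mem hζ0 hζ1 _ _).1
        · exact le_rfl
      have hhit : ∀ b, (xx b ∈ cluster O v ∨ uu b ∈ cluster O v) →
          ¬ (xx (!b) ∈ cluster O v ∨ uu (!b) ∈ cluster O v) := by
        intro b hb hb'
        cases b
        · exact not_both hO hc hA v hb hb'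
        · exact not_both hO hc hA v hb' hb
      by_cases hex : ∃ b, (xx b ∈ cluster O v ∨ uu b ∈ cluster O v)
      · obtain ⟨b, hb⟩ := hex
        have hprod : zz ζ (F ∪ cluster O v, O) =
            z1 ζ b (F ∪ cluster O v, O) * z1 ζ (!b) (F ∪ cluster O v, O) := by
          unfold zz
          cases b
          · rfl
          · exact mul_comm _ _
        have hprod' : Zp = z1 ζ b (F, O) * z1 ζ (!b) (F, O) := by
          rw [hZp]
          unfold zz
          cases b
          · rfl
          · exact mul_comm _ _
        have hle : z1 ζ b (F ∪ cluster O v, O) ≤ 1 := (z1_mem hζ0 hζ1 _ _).2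
        have hz' := (z1_mem (k := k) (s := s) hζ0 hζ1 (!b) (F, O)).1
        have hsingle : zz ζ (F ∪ cluster O v, O) - Zp ≤
            (if (alive b F ∧ (xx b ∈ cluster O v ∨ uu b ∈ cluster O v)) then
              (1 - ζ) * z1 ζ (!b) (F, O) else 0) := by
          rw [hprod, hprod', hal (!b) (hhit b hb)]
          by_cases hab : alive b F
          · rw [if_pos ⟨hab, hb⟩, hz b, if_pos hab]
            have := mul_le_mul_of_nonneg_right hle hz'
            linarith
          · rw [if_neg (fun h => hab h.1), hz b, if_neg hab]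
            have := mul_le_mul_of_nonneg_right hle hz'
            linarith
        exact hsingle.trans (Finset.single_le_sum (f := fun b =>
          (if (alive b F ∧ (xx b ∈ cluster O v ∨ uu b ∈ cluster O v)) then
              (1 - ζ) * z1 ζ (!b) (F, O) else 0)) (fun b _ => hnn b) (Finset.mem_univ b))
      · push Not at hex
        have : zz ζ (F ∪ cluster O v, O) = Zp := by
          rw [hZp]
          unfold zz
          rw [hal false (not_or.mpr (hex false)), hal true (not_or.mpr (hex true))]
        rw [this, sub_self]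
        exact Finset.sum_nonneg fun b _ => hnn b
    have hclus : ∑ C ∈ warmClusters F O, (zz ζ (F ∪ C, O) - Zp) ≤
        ∑ b : Bool, if alive b F then 2 * ((1 - ζ) * z1 ζ (!b) (F, O)) else 0 := by
      refine (Finset.sum_le_sum hCterm).trans ?_
      rw [Finset.sum_comm]
      apply Finset.sum_le_sum
      intro b _
      by_cases hb : alive b F
      · rw [if_pos hb]
        have h0 : 0 ≤ (1 - ζ) * z1 ζ (!b) (F, O) :=
          mul_nonneg (by linarith) (z1_mem hζ0 hζ1 _ _).1
        rw [← Finset.sum_filter, Finset.sum_const, nsmul_eq_mul]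
        apply mul_le_mul_of_nonneg_right _ h0
        have hcard : ((warmClusters F O).filter fun C => alive b F ∧ (xx b ∈ C ∨ uu b ∈ C)).card ≤ 2
            := by
          calc _ ≤ ({cluster O (xx b), cluster O (uu b)} : Finset (Finset (NV k s))).card := by
                apply Finset.card_le_card
                intro C hC
                rw [Finset.mem_filter] at hC
                obtain ⟨v, hv, rfl⟩ := mem_warmClusters.mp hC.1
                rw [Finset.mem_insert, Finset.mem_singleton]
                rcases hC.2.2 with h | h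
                · exact Or.inl (cluster_eq_of_mem h)
                · exact Or.inr (cluster_eq_of_mem h)
            _ ≤ 2 := Finset.card_le_two
        exact_mod_cast hcard
      · rw [if_neg hb]
        apply le_of_eq
        apply Finset.sum_eq_zero
        intro C _
        rw [if_neg (fun h => hb h.1)]
    have hfin : -(∑ b : Bool, if alive b F then Zp else 0) +
        β * ∑ b : Bool, (if alive b F then 2 * ((1 - ζ) * z1 ζ (!b) (F, O)) else 0) = 0 := by
      rw [← Finset.sum_neg_distrib, Finset.mul_sum, ← Finset.sum_add_distrib]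
      apply Finset.sum_eq_zero
      intro b _
      by_cases hb : alive b F
      · rw [if_pos hb, if_pos hb, hZeq b hb]
        have : ζ = β * (2 * (1 - ζ)) := by
          rw [hζ]; field_simp
          ring
        have e : -(ζ * z1 ζ (!b) (F, O)) + β * (2 * ((1 - ζ) * z1 ζ (!b) (F, O))) =
            (-ζ + β * (2 * (1 - ζ))) * z1 ζ (!b) (F, O) := by ring
        rw [e, ← this]
        ring
      · rw [if_neg hb, if_neg hb]; ring
    have h5 := mul_le_mul_of_nonneg_left hclus hβ.le
    linarith

/-! ### Combination -/

/-- The superharmonic function. -/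
noncomputable def uup (β : ℝ) (st : Finset (NV k s) × Finset (Sym2 (NV k s))) : ℝ :=
  if (¬ legal st.2 ∨ conn st.2) then 1 else
    ww (2 * s / (β + 2 * s)) st + zz (2 * β / (2 * β + 1)) st

theorem ww_eq_one {q : ℝ} {st : Finset (NV k s) × Finset (Sym2 (NV k s))} (h1 : legal st.2)
    (h2 : conn st.2) : ww q st = 1 := by
  unfold ww
  apply Finset.prod_eq_one
  intro i hi
  unfold w1
  rw [if_pos (touched_of_conn h1 h2 hi)]

theorem uup_super {β : ℝ} (hβ : 0 < β) (hs : 0 < s)
    (st : Finset (NV k s) × Finset (Sym2 (NV k s))) :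
    (CTMC.gen (rate (necklace k s) β) *ᵥ uup β) st ≤ 0 := by
  obtain ⟨F, O⟩ := st
  rw [gen_apply]
  have hζ0 : (0 : ℝ) ≤ 2 * β / (2 * β + 1) := by positivity
  have hζ1 : 2 * β / (2 * β + 1) ≤ 1 := by rw [div_le_one (by positivity)]; linarith
  by_cases h : (¬ legal O ∨ conn O)
  · have v0 : uup β (F, O) = 1 := if_pos h
    have v1 : ∀ e ∈ openable (necklace k s) F O, uup β (F, insert e O) = 1 := by
      intro e he
      apply if_pos
      rcases h with h | h
      · left
        intro h'
        exact h fun f hf => h' f (Finset.mem_insert_of_mem hf)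
      · exact Or.inr (conn_mono (Finset.subset_insert _ _) h)
    have v2 : ∀ C ∈ warmClusters F O, uup β (F ∪ C, O) = 1 := fun C _ => if_pos h
    rw [Finset.sum_eq_zero (fun e he => by rw [v1 e he, v0, sub_self]),
      Finset.sum_eq_zero (fun C hC => by rw [v2 C hC, v0, sub_self])]
    simp
  · push Not at h
    obtain ⟨hl, hc⟩ := h
    have hneg : ¬ (¬ legal O ∨ conn O) := by
      push Not
      exact ⟨hl, hc⟩
    have v0 : uup β (F, O) = ww (2 * s / (β + 2 * s)) (F, O) + zz (2 * β / (2 * β + 1)) (F, O) :=
      if_neg hneg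
    have v1 : ∀ e ∈ openable (necklace k s) F O, uup β (F, insert e O) ≤
        ww (2 * s / (β + 2 * s)) (F, insert e O) + zz (2 * β / (2 * β + 1)) (F, insert e O) := by
      intro e he
      have hl' : legal (insert e O) := by
        intro f hf
        rcases Finset.mem_insert.mp hf with rfl | hf
        · rw [← edgeSet_necklace]; exact (mem_openable.mp he).1
        · exact hl f hf
      unfold uup
      split_ifs with h'
      · have hc' : conn (insert e O) := h'.resolve_left fun h => h hl'
        rw [ww_eq_one (st := (F, insert e O)) hl' hc']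
        have h1 : 0 ≤ zz (2 * β / (2 * β + 1)) (F, insert e O) :=
          mul_nonneg (z1_mem hζ0 hζ1 _ _).1 (z1_mem hζ0 hζ1 _ _).1
        linarith
      · exact le_rfl
    have v2 : ∀ C ∈ warmClusters F O, uup β (F ∪ C, O) =
        ww (2 * s / (β + 2 * s)) (F ∪ C, O) + zz (2 * β / (2 * β + 1)) (F ∪ C, O) :=
      fun C _ => if_neg hneg
    have hw := gen_ww (k := k) hβ hs F O
    have hz := gen_zz (k := k) (s := s) hβ (F := F) hl hc
    have e1 : ∑ e ∈ openable (necklace k s) F O, (uup β (F, insert e O) - uup β (F, O)) ≤
        ∑ e ∈ openable (necklace k s) F O,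
          (ww (2 * s / (β + 2 * s)) (F, insert e O) - ww (2 * s / (β + 2 * s)) (F, O)) +
        ∑ e ∈ openable (necklace k s) F O,
          (zz (2 * β / (2 * β + 1)) (F, insert e O) - zz (2 * β / (2 * β + 1)) (F, O)) := by
      rw [← Finset.sum_add_distrib]
      apply Finset.sum_le_sum
      intro e he
      rw [v0]
      linarith [v1 e he]
    have e2 : ∑ C ∈ warmClusters F O, (uup β (F ∪ C, O) - uup β (F, O)) =
        ∑ C ∈ warmClusters F O,
          (ww (2 * s / (β + 2 * s)) (F ∪ C, O) - ww (2 * s / (β + 2 * s)) (F, O)) +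
        ∑ C ∈ warmClusters F O,
          (zz (2 * β / (2 * β + 1)) (F ∪ C, O) - zz (2 * β / (2 * β + 1)) (F, O)) := by
      rw [← Finset.sum_add_distrib]
      apply Finset.sum_congr rfl
      intro C hC
      rw [v0, v2 C hC]
      ring
    rw [e2, mul_add]
    linarith

theorem not_conn_empty (hk : 0 < k) : ¬ conn (∅ : Finset (Sym2 (NV k s))) := by
  intro h
  unfold conn at h
  rw [Finset.coe_empty, SimpleGraph.fromEdgeSet_empty, SimpleGraph.reachable_bot] at h
  have h1 : (0 : Fin (k + 1)) = Fin.last k := vv_inj h
  have h2 := congrArg Fin.val h1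
  simp at h2
  omega

theorem card_mid (hk : 0 < k) : (mid k).card = k - 1 := by
  have : mid k = (Finset.univ.erase 0).erase (Fin.last k) := by
    ext i
    simp [mem_mid, and_comm]
  rw [this, Finset.card_erase_of_mem, Finset.card_erase_of_mem (Finset.mem_univ _)]
  · simp
  · rw [Finset.mem_erase]
    refine ⟨fun h => ?_, Finset.mem_univ _⟩
    have h2 := congrArg Fin.val h
    simp at h2
    omega

/-- Upper bound for the probability that both end edges stay closed. -/
theorem upper_bound {β : ℝ} (hβ : 0 < β) (hs : 0 < s) (hk : 0 < k)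
    {μ : Finset (Sym2 (NV k s)) → ℝ} (hμ : IsFinalLaw (necklace k s) β μ) :
    prob μ (endsClosed k s) ≤ (2 * s / (β + 2 * s)) ^ (k - 1) + (2 * β / (2 * β + 1)) ^ 2 := by
  have hζ0 : (0 : ℝ) ≤ 2 * β / (2 * β + 1) := by positivity
  have hζ1 : 2 * β / (2 * β + 1) ≤ 1 := by rw [div_le_one (by positivity)]; linarith
  have hsr : (0 : ℝ) < s := by exact_mod_cast hs
  have hq0 : (0 : ℝ) ≤ 2 * s / (β + 2 * s) := by positivity
  have hq1 : 2 * (s : ℝ) / (β + 2 * s) ≤ 1 := by rw [div_le_one (by positivity)]; linarith
  have hend : ∀ O, (endsClosed k s).indicator 1 O ≤ uup β (Finset.univ, O) := by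
    intro O
    by_cases hO : O ∈ endsClosed k s
    · rw [Set.indicator_of_mem hO]
      unfold uup
      split_ifs with h
      · exact le_rfl
      · have h1 : zz (2 * β / (2 * β + 1)) (Finset.univ, O) = 1 := by
          unfold zz z1
          rw [if_neg (hO false), if_neg (hO true), if_neg, if_neg, mul_one]
          · rintro ⟨h, _⟩; exact h (Finset.mem_univ _)
          · rintro ⟨h, _⟩; exact h (Finset.mem_univ _)
        rw [h1, Pi.one_apply]
        linarith [ww_nonneg (k := k) hq0 hq1 (Finset.univ, O)]
    · rw [Set.indicator_of_notMem hO]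
      unfold uup
      split_ifs
      · norm_num
      · exact add_nonneg (ww_nonneg hq0 hq1 _)
          (mul_nonneg (z1_mem hζ0 hζ1 _ _).1 (z1_mem hζ0 hζ1 _ _).1)
  refine (prob_le hβ hμ (endsClosed k s) (uup_super hβ hs) hend).trans (le_of_eq ?_)
  have hneg : ¬ (¬ legal (∅ : Finset (Sym2 (NV k s))) ∨ conn (∅ : Finset (Sym2 (NV k s)))) := by
    push Not
    exact ⟨fun e he => absurd he (Finset.notMem_empty e), not_conn_empty hk⟩
  have v0 : uup β ((∅, ∅) : Finset (NV k s) × Finset (Sym2 (NV k s))) =
      ww (2 * s / (β + 2 * s)) (∅, ∅) + zz (2 * β / (2 * β + 1)) (∅, ∅) := if_neg hneg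
  rw [v0]
  congr 1
  · unfold ww
    rw [← card_mid hk, ← Finset.prod_const]
    apply Finset.prod_congr rfl
    intro i _
    unfold w1
    rw [if_neg, if_neg (Finset.notMem_empty _)]
    rintro ⟨e, he, _⟩
    exact absurd he (Finset.notMem_empty e)
  · unfold zz z1
    rw [if_neg (Finset.notMem_empty _), if_neg (Finset.notMem_empty _),
      if_pos ⟨Finset.notMem_empty _, Finset.notMem_empty _⟩,
      if_pos ⟨Finset.notMem_empty _, Finset.notMem_empty _⟩, sq]

end Pool.Agent.Q288.PCF
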